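import Pool.Agent.Zk60.LQ.Cnt

/-! Few eigenvalues near the van Hove energy in two dimensions. -/

set_option autoImplicit false
set_option linter.unusedSectionVars false

open scoped BigOperators Topology
open MeasureTheory Filter

namespace Pool.Agent.Zk71.LQ2

open Pool.Agent.W788.MFP.Four (T e NN e_add e_add_left e_zero e_comm e_neg e_neg_left e_normSq
  card_T NN_pos)
open Pool.Agent.Zk11.QD (Hz aa aa_eq co si co_si co_le co_sub co_add na co_small na_count Lpos)
open Pool.Agent.Zk60.LL.Det (EB)
open Pool.Agent.Zk60.LQ (shift_count weyl pw_EB)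

variable {L : ℕ} [NeZero L]

theorem win_count (c x : ℝ) (hx : 0 < x) :
    (((Finset.univ.filter fun q : ZMod L => |co q - c| < x).card : ℕ) : ℝ) ≤
      4 * ((L : ℝ) * Real.sqrt x) + 4 := by
  classical
  have hL := Lpos (L := L)
  have hsx : 0 < Real.sqrt x := Real.sqrt_pos.2 hx
  by_cases hne : ∃ q0 : ZMod L, |co q0 - c| < x
  · obtain ⟨q0, hq0⟩ := hne
    have h1 := shift_count q0 (L * Real.sqrt x) (by positivity)
    have h2 := shift_count (-q0) (L * Real.sqrt x) (by positivity)
    have hsub : (Finset.univ.filter fun q : ZMod L => |co q - c| < x) ⊆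
        (Finset.univ.filter fun q : ZMod L => (na (q - q0) : ℝ) ≤ L * Real.sqrt x) ∪
        (Finset.univ.filter fun q : ZMod L => (na (q - -q0) : ℝ) ≤ L * Real.sqrt x) := by
      intro q hq
      have hq1 := (Finset.mem_filter.1 hq).2
      rw [Finset.mem_union, Finset.mem_filter, Finset.mem_filter]
      have e1 : 8 * (L * Real.sqrt x) ^ 2 / (L : ℝ) ^ 2 = 8 * x := by
        rw [mul_pow, Real.sq_sqrt hx.le]
        field_simp
      have h3 : |co q - co q0| < 2 * x := by
        have h4 : co q - co q0 = (co q - c) - (co q0 - c) := by ring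
        rw [h4]
        have := abs_sub (co q - c) (co q0 - c)
        linarith
      have h5 : (1 - co (q - q0)) * (1 - co (q - -q0)) = (co q - co q0) ^ 2 := by
        rw [sub_neg_eq_add, co_sub, co_add]
        have a1 := co_si q
        have a2 := co_si q0
        linear_combination (-(si q0 ^ 2)) * a1 + (co q ^ 2 - 1) * a2
      by_cases h6 : 1 - co (q - q0) < 2 * x
      · left
        refine ⟨Finset.mem_univ _, ?_⟩
        apply co_small (q - q0) (L * Real.sqrt x) (by positivity)
        rw [e1]
        linarith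
      · right
        refine ⟨Finset.mem_univ _, ?_⟩
        apply co_small (q - -q0) (L * Real.sqrt x) (by positivity)
        rw [e1]
        by_contra h7
        push Not at h6 h7
        have h8 : (2 * x) * (2 * x) ≤ (1 - co (q - q0)) * (1 - co (q - -q0)) :=
          mul_le_mul h6 (by linarith) (by positivity) (by linarith)
        rw [h5] at h8
        have h9 : (co q - co q0) ^ 2 < (2 * x) ^ 2 := by
          rw [← sq_abs]
          exact pow_lt_pow_left₀ h3 (abs_nonneg _) (by norm_num)
        nlinarith
    have h3 := (Finset.card_le_card hsub).trans (Finset.card_union_le _ _)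
    have h4 : (((Finset.univ.filter fun q : ZMod L => |co q - c| < x).card : ℕ) : ℝ) ≤
        (((Finset.univ.filter fun q : ZMod L => (na (q - q0) : ℝ) ≤ L * Real.sqrt x).card : ℕ) : ℝ)
        + (((Finset.univ.filter fun q : ZMod L =>
          (na (q - -q0) : ℝ) ≤ L * Real.sqrt x).card : ℕ) : ℝ) := by
      exact_mod_cast h3
    linarith
  · have : (Finset.univ.filter fun q : ZMod L => |co q - c| < x) = ∅ := by
      rw [Finset.filter_eq_empty_iff]
      intro q _ hq
      exact hne ⟨q, hq⟩
    rw [this, Finset.card_empty]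
    push_cast
    positivity

/-- few free energies near the van Hove energy -/
theorem free_mid (x : ℝ) (hx : 0 < x) :
    (((Finset.univ.filter fun p : T 2 L => |aa p - 4| < 2 * x).card : ℕ) : ℝ) ≤
      (4 * ((L : ℝ) * Real.sqrt x) + 4) * L := by
  classical
  have h1 : (Finset.univ.filter fun p : T 2 L => |aa p - 4| < 2 * x).card =
      ∑ a : ZMod L, ((Finset.univ.filter fun p : T 2 L => |aa p - 4| < 2 * x).filter
        fun p => p 0 = a).card :=
    Finset.card_eq_sum_card_fiberwise (f := fun p : T 2 L => p 0) (fun _ _ => Finset.mem_univ _)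
  have h2 : ∀ a : ZMod L, ((((Finset.univ.filter fun p : T 2 L => |aa p - 4| < 2 * x).filter
        fun p => p 0 = a).card : ℕ) : ℝ) ≤ 4 * ((L : ℝ) * Real.sqrt x) + 4 := by
    intro a
    refine le_trans ?_ (win_count (L := L) (-co a) x hx)
    have h3 : ((Finset.univ.filter fun p : T 2 L => |aa p - 4| < 2 * x).filter
        fun p => p 0 = a).card ≤
        (Finset.univ.filter fun q : ZMod L => |co q - -co a| < x).card := by
      refine Finset.card_le_card_of_injOn (fun p => p 1) ?_ ?_
      · intro p hp
        have hp' : p ∈ (Finset.univ.filter fun p : T 2 L => |aa p - 4| < 2 * x).filter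
          fun p => p 0 = a := hp
        obtain ⟨hp1, hp2⟩ := Finset.mem_filter.1 hp'
        have hp3 := (Finset.mem_filter.1 hp1).2
        rw [aa_eq, Fin.sum_univ_two, hp2] at hp3
        have e1 : 2 - 2 * co a + (2 - 2 * co (p 1)) - 4 = -(2 * (co (p 1) - -co a)) := by ring
        rw [e1, abs_neg, abs_mul, abs_two] at hp3
        have : p 1 ∈ Finset.univ.filter fun q : ZMod L => |co q - -co a| < x := by
          rw [Finset.mem_filter]
          exact ⟨Finset.mem_univ _, by linarith⟩
        exact this
      · intro p hp p' hp' h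
        have hp1 : p ∈ (Finset.univ.filter fun p : T 2 L => |aa p - 4| < 2 * x).filter
          fun p => p 0 = a := hp
        have hp2 : p' ∈ (Finset.univ.filter fun p : T 2 L => |aa p - 4| < 2 * x).filter
          fun p => p 0 = a := hp'
        have h4 := (Finset.mem_filter.1 hp1).2
        have h5 := (Finset.mem_filter.1 hp2).2
        funext i
        fin_cases i
        · exact h4.trans h5.symm
        · exact h
    exact_mod_cast h3
  rw [h1]
  push_cast
  refine (Finset.sum_le_sum fun a _ => h2 a).trans (le_of_eq ?_)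
  rw [Finset.sum_const, Finset.card_univ, ZMod.card, nsmul_eq_mul]
  ring

/-- few eigenvalues near the van Hove energy -/
theorem mid_count {σ b : ℝ} {V : T 2 L → ℝ} {ψ : T 2 L → T 2 L → ℂ}
    {E : T 2 L → ℝ} (h : EB σ V ψ E) (hσ : 0 ≤ σ) (hb : ∀ x, |V x| ≤ b) (x : ℝ) (hx : 0 < x)
    (hσb : σ * b ≤ x) :
    (((Finset.univ.filter fun j => |E j - 4| ≤ x / 2).card : ℕ) : ℝ) ≤
      (4 * ((L : ℝ) * Real.sqrt x) + 4) * L := by
  classical
  have h1 := weyl h pw_EB hσ hb (4 + x) 1 (by norm_num)
    (Finset.univ.filter fun j => E j ≤ 4 + x / 2) (Finset.univ.filter fun p => 4 + 2 * x ≤ aa p)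
    (fun j hj => by
      have := (Finset.mem_filter.1 hj).2
      rw [one_mul]; linarith)
    (fun j hj => by
      have := (Finset.mem_filter.1 hj).2
      rw [one_mul]; linarith)
  have h2 := weyl h pw_EB hσ hb (-(4 - x)) (-1) (by norm_num)
    (Finset.univ.filter fun j => 4 - x / 2 ≤ E j) (Finset.univ.filter fun p => aa p ≤ 4 - 2 * x)
    (fun j hj => by
      have := (Finset.mem_filter.1 hj).2
      linarith)
    (fun j hj => by
      have := (Finset.mem_filter.1 hj).2
      linarith)
  have h3 : (Finset.univ.filter fun j : T 2 L => |E j - 4| ≤ x / 2) =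
      (Finset.univ.filter fun j : T 2 L => E j ≤ 4 + x / 2) ∩
      (Finset.univ.filter fun j : T 2 L => 4 - x / 2 ≤ E j) := by
    ext j
    rw [Finset.mem_inter, Finset.mem_filter, Finset.mem_filter, Finset.mem_filter, abs_le]
    constructor
    · rintro ⟨_, h4, h5⟩
      exact ⟨⟨Finset.mem_univ _, by linarith⟩, Finset.mem_univ _, by linarith⟩
    · rintro ⟨⟨_, h4⟩, _, h5⟩
      exact ⟨Finset.mem_univ _, by linarith, by linarith⟩
  have h4 : (Finset.univ : Finset (T 2 L)) ⊆
      (Finset.univ.filter fun j : T 2 L => E j ≤ 4 + x / 2) ∪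
      (Finset.univ.filter fun j : T 2 L => 4 - x / 2 ≤ E j) := by
    intro j _
    rw [Finset.mem_union, Finset.mem_filter, Finset.mem_filter]
    rcases le_total (E j) 4 with h5 | h5
    · exact Or.inl ⟨Finset.mem_univ _, by linarith⟩
    · exact Or.inr ⟨Finset.mem_univ _, by linarith⟩
  have h5 := Finset.card_union_add_card_inter
    (Finset.univ.filter fun j : T 2 L => E j ≤ 4 + x / 2)
    (Finset.univ.filter fun j : T 2 L => 4 - x / 2 ≤ E j)
  have h6 := Finset.card_le_card h4
  rw [Finset.card_univ] at h6
  have h7 : Fintype.card (T 2 L) ≤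
      (Finset.univ.filter fun p : T 2 L => 4 + 2 * x ≤ aa p).card +
      (Finset.univ.filter fun p : T 2 L => aa p ≤ 4 - 2 * x).card +
      (Finset.univ.filter fun p : T 2 L => |aa p - 4| < 2 * x).card := by
    have h8 : (Finset.univ : Finset (T 2 L)) ⊆
        ((Finset.univ.filter fun p : T 2 L => 4 + 2 * x ≤ aa p) ∪
        (Finset.univ.filter fun p : T 2 L => aa p ≤ 4 - 2 * x)) ∪
        (Finset.univ.filter fun p : T 2 L => |aa p - 4| < 2 * x) := by
      intro p _
      rw [Finset.mem_union, Finset.mem_union, Finset.mem_filter, Finset.mem_filter,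
        Finset.mem_filter]
      by_cases h9 : 4 + 2 * x ≤ aa p
      · exact Or.inl (Or.inl ⟨Finset.mem_univ _, h9⟩)
      · by_cases h10 : aa p ≤ 4 - 2 * x
        · exact Or.inl (Or.inr ⟨Finset.mem_univ _, h10⟩)
        · refine Or.inr ⟨Finset.mem_univ _, ?_⟩
          rw [abs_lt]
          push Not at h9 h10
          constructor <;> linarith
    have h9 := (Finset.card_le_card h8).trans ((Finset.card_union_le _ _).trans
      (Nat.add_le_add_right (Finset.card_union_le _ _) _))
    rwa [Finset.card_univ] at h9
  rw [h3]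
  refine le_trans ?_ (free_mid x hx)
  exact_mod_cast (by omega)

end Pool.Agent.Zk71.LQ2
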