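import Pool.Agent.Zk71.LQ2.Set2
import Pool.Agent.Zk11.QD.Err

/-! Quantitative diffusion bound on tori in two dimensions: the core. -/

set_option autoImplicit false
set_option linter.unusedSectionVars false

open scoped BigOperators Topology
open MeasureTheory Filter

namespace Pool.Agent.Zk71.LQ2

open Pool.Agent.Zk11.QD
open Pool.Agent.Zk60.LQ (denom small1 small2 ustep log_small err_small fin_alg)
open Pool.Agent.W788.MFP.Four (T e NN e_comm e_zero NN_pos)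
open Pool.Agent.Zk60.LL.Fin (small_rpow)
open Pool.Agent.Zk71.D2 (Ok)

/-- the constants -/
structure Cst2 (κ θ gm hm Bm C4 B C δ : ℝ) : Prop where
  κ0 : 0 < κ
  κ1 : κ < 1 / 3
  θe : θ = (1 - 3 * κ) / 8
  gm0 : 0 < gm
  hm0 : 0 < hm
  Bm1 : 1 ≤ Bm
  C40 : 0 ≤ C4
  Ba : Bm + 1 ≤ B
  Bb : 2 / gm ≤ B
  C0 : 0 < C
  Bc : C ≤ B
  Bd : C4 * (4 / θ) ^ 3 ≤ B
  Be : 1 / θ ≤ B
  δ1 : δ ≤ 1
  δ96 : δ * (96 * B) ≤ hm
  δ960 : δ * (960 * (2 : ℕ) * B) ≤ hm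
  δsq : δ ≤ (hm / (2880 * ((2 : ℕ) : ℝ) ^ 3)) ^ 2

variable {κ θ gm hm Bm C4 B C δ : ℝ}

theorem ladder2 (hc : Cst2 κ θ gm hm Bm C4 B C δ) {L : ℕ} [NeZero L] {z : ℂ}
    {σ : ℝ} {m : ℂ} (hMD : MD 2 L z σ m) {τ : ℝ} {hh : ℝ → ℂ} (μ : Measure ℝ)
    [IsProbabilityMeasure μ] (hS : Sit μ σ m C τ hh) (hσ0 : 0 < σ) (hσδ : σ ≤ δ)
    (hηκ : σ ^ (2 + κ) ≤ z.im) (hησ : z.im ≤ σ ^ 2) (hmB : ‖m‖ ≤ Bm) (hmg : gm / 2 ≤ m.im)
    (hN : N4 2 L z σ m ≤ C4 * (1 + Real.log (1 / z.im)) ^ 3)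
    (hτσ : |τ ^ 2 - σ ^ 2| ≤ σ ^ 2 / 2)
    (hu : 3 / 4 * (z.im / ss z σ m) ≤ 1 - τ ^ 2 * (m.im / ss z σ m))
    (hs2 : σ ^ θ * (10 ^ 25 * B ^ 15) ≤ 1) (p : T 2 L) :
    ‖(z.im : ℂ) * ∑ x, e p x * ((∫ V, ‖uu z σ V x‖ ^ 2 ∂(PL (T 2 L) μ) : ℝ) : ℂ) -
      z.im * (tt z σ m p / (1 - τ ^ 2 * tt z σ m p))‖ ≤
      (4 * B + 3 * 10 ^ 26 * B ^ 17) * σ ^ (θ / 2) := by
  have hσ1 : σ ≤ 1 := hσδ.trans hc.δ1
  have hκ0 := hc.κ0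
  have hκ1 := hc.κ1
  have hB1 : 1 ≤ B := by linarith [hc.Ba, hc.Bm1]
  have hB0 : 0 < B := by linarith
  have hθe := hc.θe
  have hθ0 : 0 < θ := by rw [hθe]; linarith
  have hθ1 : θ ≤ 1 := by rw [hθe]; linarith
  have hη0 := hMD.zim
  have hσ2 : σ ^ 2 ≤ 1 := pow_le_one₀ hσ0.le hσ1
  have hη1 : z.im ≤ 1 := hησ.trans hσ2
  have hmiB : m.im ≤ Bm := ((le_abs_self _).trans (Complex.abs_im_le_norm _)).trans hmB
  have hgm := hc.gm0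
  obtain ⟨hlg, hlN⟩ := log_small κ σ z.im θ C4 B hσ0 hσ1 (by linarith) hκ0 hηκ hη1 hθ0 hθ1
    hc.C40 hB1 hc.Bd hc.Be
  have h1σ : 1 ≤ 1 / σ := by
    rw [le_div_iff₀ hσ0]
    linarith
  have hS1 : 1 ≤ σ ^ (-θ) := by
    have : (σ ^ (-θ)) = (1 / σ) ^ θ := by
      rw [Real.rpow_neg hσ0.le, one_div, Real.inv_rpow hσ0.le]
    rw [this]
    exact Real.one_le_rpow h1σ hθ0.le
  have hk1 : 1 ≤ σ ^ (-κ) := by
    have : (σ ^ (-κ)) = (1 / σ) ^ κ := by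
      rw [Real.rpow_neg hσ0.le, one_div, Real.inv_rpow hσ0.le]
    rw [this]
    exact Real.one_le_rpow h1σ hκ0.le
  have hσθ : 0 < σ ^ θ := Real.rpow_pos_of_pos hσ0 _
  have hy3 : 240000 * B ^ 8 * σ ^ θ ≤ 1 := by
    refine le_trans ?_ hs2
    have h1 : B ^ 8 ≤ B ^ 15 := pow_le_pow_right₀ hB1 (by norm_num)
    have h2 : 240000 * B ^ 8 ≤ 10 ^ 25 * B ^ 15 := by
      have h3 : (240000 : ℝ) ≤ 10 ^ 25 := by norm_num
      exact mul_le_mul h3 h1 (by positivity) (by positivity)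
    rw [mul_comm (σ ^ θ)]
    exact mul_le_mul_of_nonneg_right h2 hσθ.le
  have hk : σ ^ 2 ≤ σ ^ (-κ) * z.im := by
    have h5 := mul_le_mul_of_nonneg_left hηκ (by positivity : 0 ≤ σ ^ (-κ))
    rw [← Real.rpow_add hσ0] at h5
    have e1 : -κ + (2 + κ) = ((2 : ℕ) : ℝ) := by push_cast; ring
    rw [e1, Real.rpow_natCast] at h5
    exact h5
  have hy1 : σ * (σ ^ (-κ)) ^ 3 * (σ ^ (-θ)) ^ 4 ≤ σ ^ θ := by
    have e1 : σ * (σ ^ (-κ)) ^ 3 * (σ ^ (-θ)) ^ 4 = σ ^ (1 - 3 * κ - 4 * θ) := by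
      have e0 : σ * (σ ^ (-κ)) ^ 3 * (σ ^ (-θ)) ^ 4 =
          σ ^ (1 : ℝ) * (σ ^ (-κ)) ^ 3 * (σ ^ (-θ)) ^ 4 := by rw [Real.rpow_one]
      rw [e0, ← Real.rpow_natCast (σ ^ (-κ)), ← Real.rpow_natCast (σ ^ (-θ)),
        ← Real.rpow_mul hσ0.le, ← Real.rpow_mul hσ0.le, ← Real.rpow_add hσ0,
        ← Real.rpow_add hσ0]
      congr 1
      push_cast
      ring
    rw [e1]
    exact Real.rpow_le_rpow_of_exponent_ge hσ0 hσ1 (by rw [hθe]; linarith)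
  have hy2 : σ ^ 2 * (σ ^ (-κ)) ^ 5 * (σ ^ (-θ)) ^ 7 ≤ σ ^ θ := by
    have e1 : σ ^ 2 * (σ ^ (-κ)) ^ 5 * (σ ^ (-θ)) ^ 7 = σ ^ (2 - 5 * κ - 7 * θ) := by
      rw [← Real.rpow_natCast σ 2, ← Real.rpow_natCast (σ ^ (-κ)), ← Real.rpow_natCast (σ ^ (-θ)),
        ← Real.rpow_mul hσ0.le, ← Real.rpow_mul hσ0.le, ← Real.rpow_add hσ0,
        ← Real.rpow_add hσ0]
      congr 1
      push_cast
      ring
    rw [e1]
    exact Real.rpow_le_rpow_of_exponent_ge hσ0 hσ1 (by rw [hθe]; linarith)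
  have hmi : 1 / B ≤ m.im := by
    have h5 : 1 / B ≤ 1 / (2 / gm) := one_div_le_one_div_of_le (by positivity) hc.Bb
    rw [one_div_div] at h5
    exact h5.trans hmg
  have hτ2 : τ ^ 2 ≤ 2 * σ ^ 2 := by
    have h5 := (abs_le.1 hτσ).2
    have : 0 ≤ σ ^ 2 := by positivity
    linarith
  have h := err_bound hMD μ C τ hh hS B (σ ^ (-κ)) (σ ^ (-θ)) (σ ^ θ) hB1 hσ0 hσ1
    (hmiB.trans (by linarith [hc.Ba])) hmi hc.C0.le hc.Bc hησ hk hk1 hS1 (hN.trans hlN) hτ2 hu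
    hy1 hy2 hy3 hlg p (fun V x => uu z σ V x) (fun x => uu_meas z σ x)
    (fun V x => uu_eq z hη0 σ V x) (σ ^ (θ / 2)) (by positivity)
  refine h.trans (le_trans ?_ (err_small B σ θ hB1 hσ0 hσ1 hθ0))
  have hy0 : 0 < σ ^ (θ / 2) := Real.rpow_pos_of_pos hσ0 _
  have h11 : 15000000 * B ^ 11 * σ ^ θ ≤ 10 ^ 26 * B ^ 17 * σ ^ θ := by
    have h1 : B ^ 11 ≤ B ^ 17 := pow_le_pow_right₀ hB1 (by norm_num)
    refine mul_le_mul_of_nonneg_right ?_ hσθ.le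
    exact mul_le_mul (by norm_num) h1 (by positivity) (by positivity)
  have h12 : 1000000 * B ^ 9 * σ ^ θ ≤ 10 ^ 26 * B ^ 15 * σ ^ θ := by
    have h1 : B ^ 9 ≤ B ^ 15 := pow_le_pow_right₀ hB1 (by norm_num)
    refine mul_le_mul_of_nonneg_right ?_ hσθ.le
    exact mul_le_mul (by norm_num) h1 (by positivity) (by positivity)
  have h13 : (1 + 1 / σ ^ (θ / 2)) * (15000000 * B ^ 11 * σ ^ θ) ≤
      (1 + 1 / σ ^ (θ / 2)) * (10 ^ 26 * B ^ 17 * σ ^ θ) :=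
    mul_le_mul_of_nonneg_left h11 (by positivity)
  linarith

theorem core2 (hc : Cst2 κ θ gm hm Bm C4 B C δ) {L : ℕ} [NeZero L] {z : ℂ} {σ : ℝ}
    {m : ℂ} (hMD : MD 2 L z σ m) {τ : ℝ} {hh : ℝ → ℂ} (μ : Measure ℝ) [IsProbabilityMeasure μ]
    (hS : Sit μ σ m C τ hh) (hσ0 : 0 < σ) (hσδ : σ ≤ δ)
    (hηκ : σ ^ (2 + κ) ≤ z.im) (hηδ : z.im ≤ δ * σ ^ 2) (hmB : ‖m‖ ≤ Bm) (hmg : gm / 2 ≤ m.im)
    (hQ : ∀ j, hm / 2 ≤ Qv 2 L z σ m j)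
    (hN : N4 2 L z σ m ≤ C4 * (1 + Real.log (1 / z.im)) ^ 3)
    (hCσ : C * σ ≤ 1 / 2) (hs1 : σ ^ (1 - κ) * (4 * C * Bm) ≤ 1)
    (hs2 : σ ^ θ * (10 ^ 25 * B ^ 15) ≤ 1) :
    (∀ p : T 2 L, pp p ≤ δ * σ ^ 4 →
      ‖(z.im : ℂ) * ∑ x, e p x * ((∫ V, ‖uu z σ V x‖ ^ 2 ∂(PL (T 2 L) μ) : ℝ) : ℂ)‖ ≤
        B / (3 / 4 + hm / (64 * B ^ 2) * (pp p / (σ ^ 2 * z.im))) +
          (4 * B + 3 * 10 ^ 26 * B ^ 17) * σ ^ (θ / 2)) ∧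
    4 / 5 * m.im - (4 * B + 3 * 10 ^ 26 * B ^ 17) * σ ^ (θ / 2) ≤
      z.im * ∑ x : T 2 L, ∫ V, ‖uu z σ V x‖ ^ 2 ∂(PL (T 2 L) μ) ∧
    z.im * ∑ x : T 2 L, ∫ V, ‖uu z σ V x‖ ^ 2 ∂(PL (T 2 L) μ) ≤
      4 / 3 * m.im + (4 * B + 3 * 10 ^ 26 * B ^ 17) * σ ^ (θ / 2) := by
  have hσ1 : σ ≤ 1 := hσδ.trans hc.δ1
  have hσ2 : 0 < σ ^ 2 := by positivity
  have hη0 := hMD.zim
  have hB1 : 1 ≤ B := by linarith [hc.Ba, hc.Bm1]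
  have hB0 : 0 < B := by linarith
  have hησ : z.im ≤ σ ^ 2 := by
    refine hηδ.trans ?_
    have := mul_le_mul_of_nonneg_right hc.δ1 hσ2.le
    linarith
  have hmi0 : 0 < m.im := hMD.mim
  have hmiB : m.im ≤ Bm := ((le_abs_self _).trans (Complex.abs_im_le_norm _)).trans hmB
  have hmiB' : m.im ≤ B := hmiB.trans (by linarith [hc.Ba])
  have hτσ : |τ ^ 2 - σ ^ 2| ≤ σ ^ 2 / 2 := by
    refine hS.τσ.trans ?_
    calc C * σ ^ 3 = (C * σ) * σ ^ 2 := by ring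
      _ ≤ 1 / 2 * σ ^ 2 := mul_le_mul_of_nonneg_right hCσ (by positivity)
      _ = _ := by ring
  have h1 := small1 κ C Bm σ z.im m.im (τ ^ 2 - σ ^ 2) hσ0 hηκ hc.C0
    (lt_of_lt_of_le one_pos hc.Bm1) hmi0 hmiB hs1 hS.τσ
  obtain ⟨hu1, hu2⟩ := ustep hMD τ h1
  have hsdef : ss z σ m = z.im + σ ^ 2 * m.im := rfl
  have hs0 := ss_pos hMD
  have hsB : ss z σ m ≤ B * σ ^ 2 := by
    rw [hsdef]
    have h1 : σ ^ 2 * m.im ≤ σ ^ 2 * Bm := mul_le_mul_of_nonneg_left hmiB (by positivity)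
    have h2 := mul_le_mul_of_nonneg_right hc.Ba (by positivity : 0 ≤ σ ^ 2)
    linarith
  have hlad := fun p : T 2 L => ladder2 hc hMD μ hS hσ0 hσδ hηκ hησ hmB hmg hN hτσ hu1 hs2 p
  constructor
  · intro p hp
    have hp0 := pp_nonneg p
    have hp1 : pp p ≤ 1 := by
      refine hp.trans ?_
      have h1 : σ ^ 4 ≤ 1 := pow_le_one₀ hσ0.le hσ1
      have h2 : 0 ≤ σ ^ 4 := by positivity
      calc δ * σ ^ 4 ≤ 1 * σ ^ 4 := mul_le_mul_of_nonneg_right hc.δ1 h2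
        _ ≤ 1 := by linarith
    have hsmall := small2 (d := 2) (by omega) δ σ (pp p) m.im (ss z σ m) B hm hσ0 hσδ hc.δ1 hB0
      hc.hm0 hc.δ96 hc.δ960 hc.δsq hp hmi0 hmiB' hs0 hsB (by rw [hsdef]; linarith)
    have hden := denom hMD B hm τ hc.hm0 hmiB' hsB hQ hτσ hu1 p hp1 hsmall
    exact (norm_le_norm_add_norm_sub' _ _).trans (add_le_add hden (hlad p))
  · have hl := hlad 0
    have e0 : (z.im : ℂ) * ∑ x : T 2 L, e 0 x *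
        ((∫ V, ‖uu z σ V x‖ ^ 2 ∂(PL (T 2 L) μ) : ℝ) : ℂ) =
        ((z.im * ∑ x, ∫ V, ‖uu z σ V x‖ ^ 2 ∂(PL (T 2 L) μ) : ℝ) : ℂ) := by
      push_cast
      congr 1
      refine Finset.sum_congr rfl fun x _ => ?_
      rw [e_comm, e_zero, one_mul]
    rw [e0, tt_zero hMD] at hl
    have e1 : (z.im : ℂ) * ((((m.im / ss z σ m : ℝ)) : ℂ) /
        (1 - (τ : ℂ) ^ 2 * ((m.im / ss z σ m : ℝ) : ℂ))) =
        ((z.im * ((m.im / ss z σ m) / (1 - τ ^ 2 * (m.im / ss z σ m))) : ℝ) : ℂ) := by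
      push_cast
      ring
    rw [e1, ← Complex.ofReal_sub, Complex.norm_real, Real.norm_eq_abs] at hl
    have h1 := (abs_le.1 hl).1
    have h2 := (abs_le.1 hl).2
    have hu0 : 0 < 1 - τ ^ 2 * (m.im / ss z σ m) := lt_of_lt_of_le (by positivity) hu1
    have h4 : z.im * ((m.im / ss z σ m) / (1 - τ ^ 2 * (m.im / ss z σ m))) ≤ 4 / 3 * m.im := by
      rw [← mul_div_assoc, div_le_iff₀ hu0]
      calc z.im * (m.im / ss z σ m) = 4 / 3 * m.im * (3 / 4 * (z.im / ss z σ m)) := by ring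
        _ ≤ _ := mul_le_mul_of_nonneg_left hu1 (by positivity)
    have h3 : 4 / 5 * m.im ≤
        z.im * ((m.im / ss z σ m) / (1 - τ ^ 2 * (m.im / ss z σ m))) := by
      rw [← mul_div_assoc, le_div_iff₀ hu0]
      calc 4 / 5 * m.im * (1 - τ ^ 2 * (m.im / ss z σ m)) ≤
            4 / 5 * m.im * (5 / 4 * (z.im / ss z σ m)) :=
            mul_le_mul_of_nonneg_left hu2 (by positivity)
        _ = _ := by ring
    constructor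
    · linarith
    · linarith

theorem mk_cst2 (κ gm hm Bm C4 C : ℝ) (hκ0 : 0 < κ) (hκ1 : κ < 1 / 3) (hgm : 0 < gm)
    (hhm : 0 < hm) (hBm : 1 ≤ Bm) (hC4 : 0 ≤ C4) (hC : 0 < C) :
    ∃ B δ0 : ℝ, 1 ≤ B ∧ 0 < δ0 ∧ ∀ δ ≤ δ0,
      Cst2 κ ((1 - 3 * κ) / 8) gm hm Bm C4 B C δ := by
  have hθ0 : 0 < (1 - 3 * κ) / 8 := by linarith
  set θ := (1 - 3 * κ) / 8 with hθ
  have hC4' : 0 ≤ C4 * (4 / θ) ^ 3 := by positivity
  have hθ' : 0 < 1 / θ := by positivity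
  have hg' : 0 < 2 / gm := by positivity
  obtain ⟨B, hB⟩ : ∃ B : ℝ, B = 1 + (Bm + 1) + 2 / gm + C + C4 * (4 / θ) ^ 3 + 1 / θ := ⟨_, rfl⟩
  have hB1 : 1 ≤ B := by rw [hB]; linarith
  have hB0 : 0 < B := by linarith
  refine ⟨B, min 1 (min (hm / (96 * B)) (min (hm / (960 * (2 : ℕ) * B))
    ((hm / (2880 * ((2 : ℕ) : ℝ) ^ 3)) ^ 2))), hB1, ?_, ?_⟩
  · simp only [lt_min_iff]
    exact ⟨one_pos, by positivity, by positivity, by positivity⟩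
  · intro δ hδ
    have h1 : δ ≤ 1 := hδ.trans (min_le_left _ _)
    have h2 : δ ≤ hm / (96 * B) := hδ.trans ((min_le_right _ _).trans (min_le_left _ _))
    have h3 : δ ≤ hm / (960 * (2 : ℕ) * B) :=
      hδ.trans ((min_le_right _ _).trans ((min_le_right _ _).trans (min_le_left _ _)))
    have h4 : δ ≤ (hm / (2880 * ((2 : ℕ) : ℝ) ^ 3)) ^ 2 :=
      hδ.trans ((min_le_right _ _).trans ((min_le_right _ _).trans (min_le_right _ _)))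
    refine ⟨hκ0, hκ1, hθ, hgm, hhm, hBm, hC4, by rw [hB]; linarith, by rw [hB]; linarith, hC,
      by rw [hB]; linarith, by rw [hB]; linarith, by rw [hB]; linarith, h1, ?_, ?_, h4⟩
    · rwa [le_div_iff₀ (by positivity)] at h2
    · rwa [le_div_iff₀ (by positivity)] at h3

theorem tq2 (F1 F2 : ℝ) (hF12 : F1 ≤ F2) (hO : Ok F1 F2) :
    ∃ g G : ℝ, 0 < g ∧ 0 < G ∧ ∀ b κ : ℝ, 0 < κ → κ < 1 / 3 →
    ∃ (δ C1 : ℝ) (M0 : ℝ → ℕ), 0 < δ ∧ 0 < C1 ∧ ∀ (μ : Measure ℝ) [IsProbabilityMeasure μ],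
      (∀ᵐ s ∂μ, |s| ≤ b) → ∫ s, s ∂μ = 0 → ∫ s, s ^ 2 ∂μ = 1 → ∀ E ∈ Set.Icc F1 F2,
      ∀ σ η : ℝ, 0 < σ → σ < δ → σ ^ (2 + κ) ≤ η → η ≤ δ * σ ^ 2 →
      ∀ (L : ℕ) [NeZero L], M0 η ≤ L →
        (∀ p : T 2 L, pp p ≤ δ * σ ^ 4 →
          ‖(η : ℂ) * ∑ x, e p x *
            ((∫ V, ‖uu ((E : ℂ) + η * Complex.I) σ V x‖ ^ 2 ∂(PL (T 2 L) μ) : ℝ) : ℂ)‖ ≤
            C1 / (1 + pp p / (σ ^ 2 * η)) + C1 * σ ^ ((1 - 3 * κ) / 16)) ∧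
        g ≤ η * ∑ x : T 2 L,
          ∫ V, ‖uu ((E : ℂ) + η * Complex.I) σ V x‖ ^ 2 ∂(PL (T 2 L) μ) ∧
        η * ∑ x : T 2 L,
          ∫ V, ‖uu ((E : ℂ) + η * Complex.I) σ V x‖ ^ 2 ∂(PL (T 2 L) μ) ≤ G := by
  obtain ⟨gm, hm, δs, Bm, C4, M0, hgm, hhm, hδs, hBm1, hC4, hset⟩ := setup2 F1 F2 hF12 hO
  refine ⟨gm / 5, 4 / 3 * Bm + gm / 5, by positivity, by positivity, ?_⟩
  intro b κ hκ0 hκ1
  obtain ⟨b', hb'⟩ : ∃ b' : ℝ, b' = max b 1 := ⟨_, rfl⟩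
  have hb'1 : 1 ≤ b' := by rw [hb']; exact le_max_right _ _
  have hb'b : b ≤ b' := by rw [hb']; exact le_max_left _ _
  obtain ⟨c, hc⟩ : ∃ c : ℝ, c = b' * (Bm + 1) := ⟨_, rfl⟩
  have hbc : b' ≤ c := by rw [hc]; nlinarith
  have hc1 : 1 ≤ c := hb'1.trans hbc
  have hc0 : 0 < c := by linarith
  obtain ⟨C, hC⟩ : ∃ C : ℝ, C = 100 * c ^ 3 := ⟨_, rfl⟩
  have hC0 : 0 < C := by rw [hC]; positivity
  obtain ⟨B, δ0, hB1, hδ0, hcst⟩ := mk_cst2 κ gm hm Bm C4 C hκ0 hκ1 hgm hhm hBm1 hC4 hC0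
  have hB0 : 0 < B := by linarith
  obtain ⟨c3, hc3⟩ : ∃ c3 : ℝ, c3 = min (3 / 4) (hm / (64 * B ^ 2)) := ⟨_, rfl⟩
  have hc30 : 0 < c3 := by rw [hc3]; exact lt_min (by norm_num) (by positivity)
  obtain ⟨C5, hC5⟩ : ∃ C5 : ℝ, C5 = 4 * B + 3 * 10 ^ 26 * B ^ 17 := ⟨_, rfl⟩
  have hC50 : 0 < C5 := by rw [hC5]; positivity
  obtain ⟨C1, hC1⟩ : ∃ C1 : ℝ, C1 = B / c3 + C5 + 5 / gm := ⟨_, rfl⟩
  have hC10 : 0 < C1 := by rw [hC1]; positivity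
  have hBm0 : 0 < Bm := by linarith
  have hθ0 : 0 < (1 - 3 * κ) / 8 := by linarith
  obtain ⟨l1, hl1, hl1'⟩ := small_rpow ((1 - 3 * κ) / 8) (1 / (10 ^ 25 * B ^ 15)) hθ0
    (by positivity)
  obtain ⟨l2, hl2, hl2'⟩ := small_rpow (1 - κ) (1 / (4 * C * Bm)) (by linarith) (by positivity)
  obtain ⟨l3, hl3, hl3'⟩ := small_rpow ((1 - 3 * κ) / 8 / 2) (gm / (5 * C5)) (by positivity)
    (by positivity)
  obtain ⟨δ, hδ⟩ : ∃ δ : ℝ, δ = min (min δ0 (min δs (1 / (200 * c ^ 3)))) (min l1 (min l2 l3)) :=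
    ⟨_, rfl⟩
  have hδpos : 0 < δ := by
    rw [hδ]
    exact lt_min (lt_min hδ0 (lt_min hδs (by positivity))) (lt_min hl1 (lt_min hl2 hl3))
  have hδδ0 : δ ≤ δ0 := by rw [hδ]; exact (min_le_left _ _).trans (min_le_left _ _)
  have hδδs : δ ≤ δs := by
    rw [hδ]; exact (min_le_left _ _).trans ((min_le_right _ _).trans (min_le_left _ _))
  have hδc : δ ≤ 1 / (200 * c ^ 3) := by
    rw [hδ]; exact (min_le_left _ _).trans ((min_le_right _ _).trans (min_le_right _ _))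
  have hδl1 : δ ≤ l1 := by rw [hδ]; exact (min_le_right _ _).trans (min_le_left _ _)
  have hδl2 : δ ≤ l2 := by
    rw [hδ]; exact (min_le_right _ _).trans ((min_le_right _ _).trans (min_le_left _ _))
  have hδl3 : δ ≤ l3 := by
    rw [hδ]; exact (min_le_right _ _).trans ((min_le_right _ _).trans (min_le_right _ _))
  clear hδ
  refine ⟨δ, C1, M0, hδpos, hC10, ?_⟩
  intro μ _ hb hm1 hm2 E hE σ η hσ0 hσδ hηκ hηδ L _ hL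
  have hCst := hcst δ hδδ0
  have hσ1 : σ ≤ 1 := hσδ.le.trans hCst.δ1
  have hσ2 : σ ^ 2 ≤ 1 := pow_le_one₀ hσ0.le hσ1
  have hη0 : 0 < η := lt_of_lt_of_le (Real.rpow_pos_of_pos hσ0 _) hηκ
  have hηδ' : η ≤ δ := hηδ.trans (mul_le_of_le_one_right hδpos.le hσ2)
  have hzim : ((E : ℂ) + η * Complex.I).im = η := by simp
  obtain ⟨m, hm0, hmeq⟩ := mde_exists (aa (d := 2) (L := L)) ((E : ℂ) + η * Complex.I)
    (by rw [hzim]; exact hη0) σ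
  have hMD : MD 2 L ((E : ℂ) + η * Complex.I) σ m := ⟨by rw [hzim]; exact hη0, hm0, hmeq⟩
  obtain ⟨hmB, hmg, hQ, hN⟩ := hset E hE σ η hσ0 (hσδ.le.trans hδδs) hη0 (hηδ'.trans hδδs) L hL
    m hMD
  have hσc := hσδ.le.trans hδc
  rw [le_div_iff₀ (by positivity)] at hσc
  obtain ⟨τ, hh, hS⟩ := site_aux μ b' c σ m hb'1 hbc
    (by rw [hc]; nlinarith [norm_nonneg m]) (by rw [hc]; nlinarith [norm_nonneg m]) hσ0
    (by linarith) (hb.mono fun s hs => hs.trans hb'b) hm1 hm2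
  rw [← hC] at hS
  have g1 := hl1' σ hσ0 (lt_of_lt_of_le hσδ hδl1)
  rw [le_div_iff₀ (by positivity)] at g1
  have g2 := hl2' σ hσ0 (lt_of_lt_of_le hσδ hδl2)
  rw [le_div_iff₀ (by positivity)] at g2
  have g3 := hl3' σ hσ0 (lt_of_lt_of_le hσδ hδl3)
  rw [le_div_iff₀ (by positivity)] at g3
  have hcore := core2 hCst hMD μ hS hσ0 hσδ.le (by rw [hzim]; exact hηκ)
    (by rw [hzim]; exact hηδ) hmB hmg hQ (by rw [hzim]; exact hN) (by rw [hC]; linarith) g2 g1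
  rw [hzim] at hcore
  obtain ⟨hA, hBb, hBc⟩ := hcore
  rw [← hC5] at hA hBb hBc
  have hexp : (1 - 3 * κ) / 16 = (1 - 3 * κ) / 8 / 2 := by ring
  rw [hexp]
  constructor
  · intro p hp
    refine (hA p hp).trans ?_
    have := pp_nonneg p
    exact fin_alg B hm gm c3 C5 C1 _ _ hB0 hgm hc3 hc30 hC50 hC1 (by positivity) (by positivity)
  · constructor
    · linarith
    · have hmiB : m.im ≤ Bm := ((le_abs_self _).trans (Complex.abs_im_le_norm _)).trans hmB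
      linarith

end Pool.Agent.Zk71.LQ2
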