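import Pool.Agent.Zk71.D2.Gl

/-! The free Green function on tori of all sizes in two dimensions. -/

set_option autoImplicit false
set_option linter.unusedSectionVars false

open scoped BigOperators Topology
open MeasureTheory Filter

namespace Pool.Agent.Zk71.LQ2

open Pool.Agent.Zk11.QD Pool.Agent.Zk71.DR Pool.Agent.Zk71.D2
open Pool.Agent.W788.MFP.Four (T e NN adj adj_neg e_comm e_add_left e_add e_zero e_neg e_neg_left
  e_normSq sum_e NN_pos card_T e_single)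

variable {d : ℕ}

theorem lift_zero_iff' {M : ℕ} [NeZero M] (t : T d M) : lift t = 0 ↔ t = 0 := by
  constructor
  · intro h1
    rw [← pr_lift t, h1, pr_zero]
  · intro h1
    rw [h1]
    funext i
    simp [lift]

theorem nbM (h M : ℕ) [NeZero M] (hM : 2 * h + 2 ≤ M) (x : T d M) (v : Zd d) (i : Fin d)
    (hv : v = Pi.single i 1 ∨ v = -Pi.single i 1) (G : Zd d → ℂ) :
    G (lift x + v) - G (lift (x + pr M v)) =
      fp h G (lift x + v) - fp h G (lift (x + pr M v)) := by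
  classical
  have e1 : x + pr M v = pr M (lift x + v) := by
    rw [pr_add, pr_lift]
  rw [e1]
  by_cases hin : lift (pr M (lift x + v)) = lift x + v
  · rw [hin, sub_self, sub_self]
  · have hj : ∃ j, lift (pr M (lift x + v)) j ≠ (lift x + v) j := by
      by_contra hcon
      push Not at hcon
      exact hin (funext hcon)
    obtain ⟨j, hj⟩ := hj
    have hvi : |v j| ≤ 1 := by
      rcases hv with hv | hv
      · rw [hv]
        by_cases hk : j = i
        · subst hk; simp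
        · simp [hk]
      · rw [hv]
        by_cases hk : j = i
        · subst hk; simp
        · simp [hk]
    obtain ⟨a, ha⟩ : ∃ a : ℤ, a = (lift x + v) j := ⟨_, rfl⟩
    obtain ⟨b, hb⟩ : ∃ b : ℤ, b = lift (pr M (lift x + v)) j := ⟨_, rfl⟩
    have hmem := (pr M (lift x + v) j).valMinAbs_mem_Ioc
    have hmem' := (x j).valMinAbs_mem_Ioc
    rw [Set.mem_Ioc] at hmem hmem'
    have hb1 : lift (pr M (lift x + v)) j = (pr M (lift x + v) j).valMinAbs := rfl
    have hx1 : lift x j = (x j).valMinAbs := rfl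
    have hcong : ((b : ℤ) : ZMod M) = ((a : ℤ) : ZMod M) := by
      rw [hb, hb1, ZMod.coe_valMinAbs, ha]
      rfl
    rw [ZMod.intCast_eq_intCast_iff_dvd_sub] at hcong
    obtain ⟨k, hk⟩ := hcong
    have hk0 : k ≠ 0 := by
      rintro rfl
      rw [mul_zero] at hk
      apply hj
      rw [← ha, ← hb]
      omega
    have hM0 : (0 : ℤ) < M := by
      have := Nat.pos_of_ne_zero (NeZero.ne M)
      exact_mod_cast this
    have hdist : (M : ℤ) ≤ |a - b| := by
      rw [hk, abs_mul, abs_of_pos hM0]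
      have : 1 ≤ |k| := Int.one_le_abs hk0
      nlinarith
    have hab : |a - b| ≤ |a| + |b| := abs_sub _ _
    have h2b : 2 * |b| ≤ M := by
      rw [hb, hb1]
      rcases abs_cases ((pr M (lift x + v) j).valMinAbs) with ⟨q1, q2⟩ | ⟨q1, q2⟩
      · rw [q1]; omega
      · rw [q1]; omega
    have h2x : 2 * |lift x j| ≤ M := by
      rw [hx1]
      rcases abs_cases ((x j).valMinAbs) with ⟨q1, q2⟩ | ⟨q1, q2⟩
      · rw [q1]; omega
      · rw [q1]; omega
    have h2a : |a| ≤ |lift x j| + |v j| := by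
      rw [ha]
      exact abs_add_le _ _
    have hMh : (2 * (h : ℤ) + 2) ≤ M := by exact_mod_cast hM
    have f1 : far h (lift x + v) := ⟨j, by rw [← ha]; omega⟩
    have f2 : far h (lift (pr M (lift x + v))) := ⟨j, by rw [← hb]; omega⟩
    unfold fp
    rw [if_pos f1, if_pos f2]

/-- the boundary term -/
noncomputable def btM (M : ℕ) (G : Zd d → ℂ) (x : T d M) : ℂ :=
  ∑ i : Fin d, ((G (lift x + Pi.single i 1) - G (lift (x + Pi.single i 1))) +
    (G (lift x - Pi.single i 1) - G (lift (x - Pi.single i 1))))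

theorem Hz_liftM (z : ℂ) (ω : Zd d → ℝ) (G : Zd d → ℂ) (hG : IsG 0 ω z G) (M : ℕ) [NeZero M]
    (V : T d M → ℝ) (x : T d M) :
    Hz z 0 V (fun t => G (lift t)) x = (if x = 0 then 1 else 0) + btM M G x := by
  have h1 := hG.eq (lift x)
  have h2 : (if lift x = 0 then (1 : ℂ) else 0) = if x = 0 then 1 else 0 := by
    simp only [lift_zero_iff']
  rw [h2] at h1
  rw [← h1]
  unfold HZ Hz btM
  have e1 : ∑ i : Fin d, ((G (lift x + Pi.single i 1) - G (lift x)) +
      (G (lift x - Pi.single i 1) - G (lift x))) =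
      ∑ i : Fin d, (G (lift x + Pi.single i 1) + G (lift x - Pi.single i 1)) -
        2 * (d : ℂ) * G (lift x) := by
    rw [Finset.sum_add_distrib, Finset.sum_sub_distrib, Finset.sum_sub_distrib,
      Finset.sum_add_distrib]
    simp
    ring
  have e2 : ∑ i : Fin d, ((G (lift x + Pi.single i 1) - G (lift (x + Pi.single i 1))) +
      (G (lift x - Pi.single i 1) - G (lift (x - Pi.single i 1)))) =
      ∑ i : Fin d, (G (lift x + Pi.single i 1) + G (lift x - Pi.single i 1)) -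
      ∑ i : Fin d, (G (lift (x + Pi.single i 1)) + G (lift (x - Pi.single i 1))) := by
    rw [← Finset.sum_sub_distrib]
    exact Finset.sum_congr rfl fun i _ => by ring
  rw [e1, e2]
  push_cast
  ring

theorem bt_sqM (h M : ℕ) [NeZero M] (hM : 2 * h + 2 ≤ M) (G : Zd d → ℂ)
    (hG : Summable fun x => ‖G x‖ ^ 2) :
    ∑ x : T d M, ‖btM M G x‖ ^ 2 ≤ 16 * (d : ℝ) ^ 2 * ∑' y, ‖fp h G y‖ ^ 2 := by
  set A : ℝ := ∑' y, ‖fp h G y‖ ^ 2 with hA
  -- one neighbour
  have key : ∀ (v : Zd d) (i : Fin d), (v = Pi.single i 1 ∨ v = -Pi.single i 1) →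
      ∑ x : T d M, ‖G (lift x + v) - G (lift (x + pr M v))‖ ^ 2 ≤ 4 * A := by
    intro v i hv
    have h1 : ∀ x : T d M, ‖G (lift x + v) - G (lift (x + pr M v))‖ ^ 2 ≤
        2 * ‖fp h G (lift x + v)‖ ^ 2 + 2 * ‖fp h G (lift (x + pr M v))‖ ^ 2 := by
      intro x
      rw [nbM h M hM x v i hv G]
      have h2 := norm_sub_le (fp h G (lift x + v)) (fp h G (lift (x + pr M v)))
      have h3 := pow_le_pow_left₀ (norm_nonneg _) h2 2
      nlinarith [sq_nonneg (‖fp h G (lift x + v)‖ - ‖fp h G (lift (x + pr M v))‖)]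
    refine (Finset.sum_le_sum fun x _ => h1 x).trans ?_
    rw [Finset.sum_add_distrib, ← Finset.mul_sum, ← Finset.mul_sum]
    have h2 := fp_inj h G hG (fun x : T d M => lift x + v)
      (fun a b hab => lift_inj (add_right_cancel hab))
    have h3 := fp_inj h G hG (fun x : T d M => lift (x + pr M v))
      (fun a b hab => add_right_cancel (lift_inj hab))
    linarith
  have hpt : ∀ x : T d M, ‖btM M G x‖ ^ 2 ≤ 2 * d * ∑ i : Fin d,
      (‖G (lift x + Pi.single i 1) - G (lift (x + Pi.single i 1))‖ ^ 2 +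
        ‖G (lift x - Pi.single i 1) - G (lift (x - Pi.single i 1))‖ ^ 2) := by
    intro x
    unfold btM
    have h1 := norm_sum_le (Finset.univ : Finset (Fin d)) (fun i =>
      ((G (lift x + Pi.single i 1) - G (lift (x + Pi.single i 1))) +
        (G (lift x - Pi.single i 1) - G (lift (x - Pi.single i 1)))))
    refine (pow_le_pow_left₀ (norm_nonneg _) h1 2).trans ?_
    refine (sq_sum_le_card_mul_sum_sq).trans ?_
    rw [Finset.card_univ, Fintype.card_fin, mul_assoc 2, mul_left_comm]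
    refine mul_le_mul_of_nonneg_left ?_ (Nat.cast_nonneg d)
    rw [Finset.mul_sum]
    refine Finset.sum_le_sum fun i _ => ?_
    set a := G (lift x + Pi.single i 1) - G (lift (x + Pi.single i 1))
    set b := G (lift x - Pi.single i 1) - G (lift (x - Pi.single i 1))
    have h3 := pow_le_pow_left₀ (norm_nonneg _) (norm_add_le a b) 2
    nlinarith [sq_nonneg (‖a‖ - ‖b‖)]
  refine (Finset.sum_le_sum fun x _ => hpt x).trans ?_
  rw [← Finset.mul_sum, Finset.sum_comm]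
  have h5 : ∀ i : Fin d, ∑ x : T d M,
      (‖G (lift x + Pi.single i 1) - G (lift (x + Pi.single i 1))‖ ^ 2 +
        ‖G (lift x - Pi.single i 1) - G (lift (x - Pi.single i 1))‖ ^ 2) ≤ 8 * A := by
    intro i
    rw [Finset.sum_add_distrib]
    have k1 := key (Pi.single i 1) i (Or.inl rfl)
    have k2 := key (-Pi.single i 1) i (Or.inr rfl)
    have e1 : pr M (Pi.single i 1 : Zd d) = Pi.single i 1 := pr_single i
    have e2 : pr M (-Pi.single i 1 : Zd d) = -Pi.single i 1 := by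
      have := pr_sub (L := M) (0 : Zd d) (Pi.single i 1)
      rw [zero_sub, pr_zero, zero_sub, e1] at this
      exact this
    rw [e1] at k1
    rw [e2] at k2
    simp only [← sub_eq_add_neg] at k2
    linarith
  calc 2 * (d : ℝ) * ∑ i : Fin d, ∑ x : T d M,
      (‖G (lift x + Pi.single i 1) - G (lift (x + Pi.single i 1))‖ ^ 2 +
        ‖G (lift x - Pi.single i 1) - G (lift (x - Pi.single i 1))‖ ^ 2) ≤
      2 * (d : ℝ) * ∑ _i : Fin d, 8 * A :=
        mul_le_mul_of_nonneg_left (Finset.sum_le_sum fun i _ => h5 i) (by positivity)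
    _ = _ := by
        rw [Finset.sum_const, Finset.card_univ, Fintype.card_fin, nsmul_eq_mul]
        ring

/-- closeness of the Green functions -/
theorem closeM (ω : Zd d → ℝ) (z : ℂ) (hz : 0 < z.im) (G : Zd d → ℂ)
    (hG : IsG 0 ω z G) (h M : ℕ) [NeZero M] (hM : 2 * h + 2 ≤ M) :
    ∑ x : T d M, ‖G (lift x) - kc (rv z) x‖ ^ 2 ≤
      16 * (d : ℝ) ^ 2 / z.im ^ 2 * ∑' y, ‖fp h G y‖ ^ 2 := by
  have h1 := Hz_coercive hz (σ := 0) (fun _ : T d M => (0 : ℝ)) (fun t => G (lift t) - kc (rv z) t)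
  have h2 : ∀ x : T d M, Hz z 0 (fun _ : T d M => (0 : ℝ)) (fun t => G (lift t) - kc (rv z) t) x =
      btM M G x := by
    intro x
    rw [Hz_sub z 0 (fun _ => 0) (fun t => G (lift t)) (kc (rv z)), Hz_liftM z ω G hG,
      kc_eq z hz]
    ring
  simp only [h2] at h1
  have h3 := h1.trans (bt_sqM h M hM G hG.sq)
  rw [div_mul_eq_mul_div, le_div_iff₀ (by positivity), mul_comm]
  exact h3

/-- uniform closeness -/
theorem close_all (d : ℕ) (hd : 1 ≤ d) (η θ : ℝ) (hη : 0 < η) (hθ : 0 < θ) :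
    ∃ M0 : ℕ, ∀ (M : ℕ) [NeZero M], M0 ≤ M → ∀ w : ℂ, η ≤ w.im → ∀ (ω : Zd d → ℝ)
      (G : Zd d → ℂ), IsG 0 ω w G →
      ∑ x : T d M, ‖G (lift x) - kc (rv w) x‖ ^ 2 ≤ θ := by
  have hd0 : (0 : ℝ) < d := by exact_mod_cast hd
  set a : ℝ := min η 1 / (8 * d) with ha
  have hm : 0 < min η 1 := lt_min hη one_pos
  have ha0 : 0 < a := by positivity
  have ha1 : a ≤ 1 := by
    rw [ha, div_le_one (by positivity)]
    have h1 := min_le_right η 1
    have h2 : (1 : ℝ) ≤ d := by exact_mod_cast hd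
    linarith
  have ha8 : 8 * d * a = min η 1 := by
    rw [ha]
    field_simp
  have hlim : Tendsto (fun h : ℕ => 16 * (d : ℝ) ^ 2 / η ^ 2 *
      (d * (Real.exp (-(2 * a * h)) * (4 / η ^ 2)))) atTop (𝓝 0) := by
    have h1 : Tendsto (fun h : ℕ => Real.exp (-(2 * a * h))) atTop (𝓝 0) := by
      refine Real.tendsto_exp_neg_atTop_nhds_zero.comp ?_
      exact (tendsto_natCast_atTop_atTop).const_mul_atTop (by positivity)
    have h2 := ((h1.mul_const (4 / η ^ 2)).const_mul (d : ℝ)).const_mul (16 * (d : ℝ) ^ 2 / η ^ 2)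
    simpa using h2
  obtain ⟨h, hh⟩ := (hlim.eventually_le_const hθ).exists
  refine ⟨2 * h + 2, ?_⟩
  intro M _ hM w hw ω G hG
  have hw0 : 0 < w.im := hη.trans_le hw
  have h1 := closeM ω w hw0 G hG h M hM
  have h2 := far_mass w hw0 ω G hG a ha0.le ha1 (by
    rw [ha8]
    exact (min_le_left _ _).trans hw) h
  refine h1.trans (le_trans ?_ hh)
  have h4 : 16 * (d : ℝ) ^ 2 / w.im ^ 2 ≤ 16 * (d : ℝ) ^ 2 / η ^ 2 :=
    div_le_div_of_nonneg_left (by positivity) (by positivity) (pow_le_pow_left₀ hη.le hw 2)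
  have h5 : 4 / w.im ^ 2 ≤ 4 / η ^ 2 :=
    div_le_div_of_nonneg_left (by positivity) (by positivity) (pow_le_pow_left₀ hη.le hw 2)
  have h6 : ∑' y, ‖fp h G y‖ ^ 2 ≤ d * (Real.exp (-(2 * a * h)) * (4 / η ^ 2)) := by
    refine h2.trans ?_
    gcongr
  have h7 : 0 ≤ ∑' y, ‖fp h G y‖ ^ 2 := tsum_nonneg fun _ => by positivity
  exact mul_le_mul h4 h6 h7 (by positivity)

/-- the fourth moment on the torus -/
theorem kc4_sumM (w : ℂ) (hw : 0 < w.im) (hw1 : w.im ≤ 1) (ω : Zd 2 → ℝ) (G : Zd 2 → ℂ)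
    (hG : IsG 0 ω w G) (C : ℝ) (hC : 0 ≤ C) (hb : ∀ x : Zd 2, x ≠ 0 → ‖G x‖ ^ 2 ≤ C / nx x)
    (M : ℕ) [NeZero M] (hcl : ∑ x : T 2 M, ‖G (lift x) - kc (rv w) x‖ ^ 2 ≤ 1) :
    ∑ x : T 2 M, ‖kc (rv w) x‖ ^ 4 ≤
      8 * (‖G 0‖ ^ 4 + C ^ 2 * (5 + 4 * Real.log (1 / w.im)) ^ 2 + 2 * C) + 8 := by
  classical
  have h1 : ∀ x : T 2 M, ‖kc (rv w) x‖ ^ 4 ≤ 8 * ‖G (lift x)‖ ^ 4 +
      8 * ‖G (lift x) - kc (rv w) x‖ ^ 2 := by
    intro x
    set a := ‖G (lift x)‖ with ha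
    set b := ‖G (lift x) - kc (rv w) x‖ with hb'
    have ha0 : 0 ≤ a := norm_nonneg _
    have hb0 : 0 ≤ b := norm_nonneg _
    have h2 : ‖kc (rv w) x‖ ≤ a + b := by
      have e1 : kc (rv w) x = G (lift x) - (G (lift x) - kc (rv w) x) := by ring
      have := norm_sub_le (G (lift x)) (G (lift x) - kc (rv w) x)
      rwa [← e1] at this
    have h3 : b ^ 2 ≤ 1 := (Finset.single_le_sum (f := fun x : T 2 M =>
      ‖G (lift x) - kc (rv w) x‖ ^ 2) (fun _ _ => by positivity) (Finset.mem_univ x)).trans hcl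
    have h4 := pow_le_pow_left₀ (norm_nonneg _) h2 4
    have h5 : (a + b) ^ 4 ≤ 8 * (a ^ 4 + b ^ 4) := by
      nlinarith [sq_nonneg (a - b), sq_nonneg (a ^ 2 - b ^ 2), mul_nonneg ha0 hb0,
        sq_nonneg (a + b)]
    have h6 : b ^ 4 ≤ b ^ 2 := by nlinarith [sq_nonneg b]
    linarith
  refine (Finset.sum_le_sum fun x _ => h1 x).trans ?_
  rw [Finset.sum_add_distrib, ← Finset.mul_sum, ← Finset.mul_sum]
  have h2 : ∑ x : T 2 M, ‖G (lift x)‖ ^ 4 =
      ∑ y ∈ (Finset.univ : Finset (T 2 M)).image lift, ‖G y‖ ^ 4 := by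
    rw [Finset.sum_image]
    intro a _ b _ hab
    exact lift_inj hab
  have h3 := G4_sum w hw hw1 ω G hG C hC hb
    ((Finset.univ : Finset (T 2 M)).image lift)
  rw [h2]
  linarith

/-- the fourth moment on large tori of all sizes -/
theorem n4all {E1 E2 : ℝ} {g h : ℝ → ℂ} {r C : ℝ} (hb : BV E1 E2 g h r C) :
    ∃ C4 : ℝ, 0 ≤ C4 ∧ ∀ η : ℝ, 0 < η → ∃ M0 : ℕ, ∀ (M : ℕ) [NeZero M], M0 ≤ M →
    ∀ w ∈ Rg E1 E2 r, η ≤ w.im → ∑ x : T 2 M, ‖kc (rv w) x‖ ^ 4 ≤
      C4 * (1 + Real.log (1 / w.im)) ^ 2 := by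
  have hC := hb.C0
  refine ⟨8 * (C ^ 4 + 25 * C ^ 2 + 2 * C) + 8, by positivity, ?_⟩
  intro η hη
  obtain ⟨M0, hM0⟩ := close_all 2 (by norm_num) η 1 hη one_pos
  refine ⟨M0, ?_⟩
  intro M _ hM w hw hwη
  obtain ⟨G, hG⟩ := isG_exists 0 (fun _ : Zd 2 => 0) w hw.1
  have him1 : w.im ≤ 1 := hw.2.1.trans hb.r1
  have h1 := kc4_sumM w hw.1 him1 _ G hG C hC (hb.pd w hw G hG) M (hM0 M hM w hwη _ G hG)
  refine h1.trans ?_
  have hG0 : ‖G 0‖ ≤ C := by
    rw [← lapG w hw.1 _ G hG]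
    exact hb.bd w hw
  have hlog : 0 ≤ Real.log (1 / w.im) := Real.log_nonneg (by
    rw [le_div_iff₀ hw.1]
    linarith)
  set Λ := 1 + Real.log (1 / w.im) with hΛ
  have hΛ1 : 1 ≤ Λ ^ 2 := one_le_pow₀ (by linarith)
  have h2 : (5 + 4 * Real.log (1 / w.im)) ^ 2 ≤ 25 * Λ ^ 2 := by
    rw [hΛ]
    nlinarith
  have h3 : ‖G 0‖ ^ 4 ≤ C ^ 4 := pow_le_pow_left₀ (norm_nonneg _) hG0 4
  have h4 : C ^ 2 * (5 + 4 * Real.log (1 / w.im)) ^ 2 ≤ C ^ 2 * (25 * Λ ^ 2) := by gcongr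
  have h5 : C ^ 4 ≤ C ^ 4 * Λ ^ 2 := by
    have : 0 ≤ C ^ 4 := by positivity
    nlinarith
  have h6 : C ≤ C * Λ ^ 2 := by nlinarith
  nlinarith

end Pool.Agent.Zk71.LQ2
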