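import Pool.Agent.Zk71.LQ2.Sm
import Pool.Agent.Zk60.LQ.Fm

/-! Localization lengths in small windows of energies in two dimensions: quantitative form. -/

set_option autoImplicit false
set_option linter.unusedSectionVars false

open scoped BigOperators Topology
open MeasureTheory Filter

namespace Pool.Agent.Zk71.LQ2

open Pool.Agent.W788.MFP.Four (T e NN NN_pos card_T)
open Pool.Agent.Zk11.QD
open Pool.Agent.Zk60.LL.Phi (hv Rep rep_KT rep_one)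
open Pool.Agent.Zk60.LL.Ker (KT KT_rep KT_large)
open Pool.Agent.Zk60.LL.Det (EB)
open Pool.Agent.Zk60.LL.Wdt (cover)
open Pool.Agent.Zk60.LQ (cover_up Hyp hv_one Mm Aa Mm_pos Mm_ge Mm_le MA_le kb th card_L cen Ix BW
  BW_meas prob1 good1 Kw Bd)
open Pool.Agent.Zk71.D2 (Ok)

section
variable {κ a s1 γ' β δ C1 g G r0 lam F1 F2 s0 E1 E2 b : ℝ} {μ : Measure ℝ}
  [IsProbabilityMeasure μ]

theorem m1 (hS : Sm2 κ a s1 γ' β δ C1 g G r0 lam)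
    (hH : Hyp 2 μ κ a F1 F2 δ C1 s0 g G lam) (hC1 : 0 < C1) (hs1 : 0 < s1) (hs : s1 ≤ s0)
    (hκa : κ = 1 / 3 - a) {L : ℕ} [NeZero L] (hL : lam ^ (-(7 / 3 : ℝ)) ≤ L) :
    ∀ u ∈ Set.Icc F1 F2, lam ^ (2 + κ) * hv μ (KT L (Mm lam s1) (th 2 (Mm lam s1) (Aa lam κ s1)))
      (lam ^ (2 + κ)) lam u ≤ 12 * C1 * lam ^ s1 := by
  intro u hu
  have h0 := hS.l0
  have h1 : lam ≤ 1 := by linarith [hS.l1]
  have hη0 : 0 < lam ^ (2 + κ) := Real.rpow_pos_of_pos h0 _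
  have hA0 : 0 < Aa lam κ s1 := Real.rpow_pos_of_pos h0 _
  have hηL : lam ^ (-a) ≤ lam ^ (2 + κ) * L := by
    have h2 := mul_le_mul_of_nonneg_left hL hη0.le
    rw [← Real.rpow_add h0] at h2
    refine le_trans (le_of_eq ?_) h2
    congr 1
    rw [hκa]; ring
  obtain ⟨hA, -, -⟩ := hH u hu (lam ^ (2 + κ)) le_rfl hS.ηδ L hηL
  have hMA := MA_le (κ := κ) h0 h1 hs1
  have hMA0 : 0 ≤ 2 * (Mm lam s1 : ℝ) * Aa lam κ s1 := by positivity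
  have k := kb (by omega : 1 ≤ 2) μ u (lam ^ (2 + κ)) lam δ C1 (C1 * lam ^ s0) (Aa lam κ s1)
    (Mm lam s1) (Mm_pos h0) hη0 h0 hC1 hA0
    (hS.AL.trans (mul_le_mul_of_nonneg_left hL hA0.le))
    (by linarith [hS.MA])
    ((pow_le_pow_left₀ hMA0 (by linarith) 2).trans hS.MA2) hA
  refine k.trans ?_
  have e1 : C1 / (Mm lam s1 : ℝ) ≤ C1 * lam ^ s1 := by
    have h2 : 0 < lam ^ (-s1) := Real.rpow_pos_of_pos h0 _
    have h3 := div_le_div_of_nonneg_left hC1.le h2 (Mm_ge lam s1)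
    rw [Real.rpow_neg h0.le, div_inv_eq_mul] at h3
    exact h3
  have e2 : lam ^ 2 * lam ^ (2 + κ) / Aa lam κ s1 ^ 2 ≤ lam ^ s1 := by
    unfold Aa
    rw [← Real.rpow_natCast, ← Real.rpow_natCast (lam ^ (2 + κ / 2 - s1)), ← Real.rpow_mul h0.le,
      ← Real.rpow_add h0, ← Real.rpow_sub h0]
    refine Real.rpow_le_rpow_of_exponent_ge h0 h1 ?_
    push_cast
    linarith
  have e3 : Real.pi ^ 2 ≤ 10 := by
    have := Real.pi_lt_d2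
    have := Real.pi_pos
    nlinarith
  have e4 : C1 * (Real.pi ^ 2 * (lam ^ 2 * lam ^ (2 + κ)) / Aa lam κ s1 ^ 2) ≤
      10 * C1 * lam ^ s1 := by
    have f1 : C1 * (Real.pi ^ 2 * (lam ^ 2 * lam ^ (2 + κ)) / Aa lam κ s1 ^ 2) =
        C1 * (Real.pi ^ 2 * (lam ^ 2 * lam ^ (2 + κ) / Aa lam κ s1 ^ 2)) := by ring
    rw [f1]
    have f2 : Real.pi ^ 2 * (lam ^ 2 * lam ^ (2 + κ) / Aa lam κ s1 ^ 2) ≤ 10 * lam ^ s1 :=
      mul_le_mul e3 e2 (by positivity) (by norm_num)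
    have := mul_le_mul_of_nonneg_left f2 hC1.le
    linarith
  have e5 : C1 * lam ^ s0 ≤ C1 * lam ^ s1 :=
    mul_le_mul_of_nonneg_left (Real.rpow_le_rpow_of_exponent_ge h0 h1 hs) hC1.le
  linarith

theorem ball (hS : Sm2 κ a s1 γ' β δ C1 g G r0 lam) (hs1 : 0 < s1) {L : ℕ} [NeZero L]
    (hL : lam ^ (-(7 / 3 : ℝ)) ≤ L) (y0 x y : T 2 L)
    (hx : ∀ i, |((x - y0) i).valMinAbs| ≤ lam ^ (-β))
    (hy : ∀ i, |((y - y0) i).valMinAbs| ≤ lam ^ (-β)) :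
    1 / 2 ≤ KT L (Mm lam s1) (th 2 (Mm lam s1) (Aa lam κ s1)) (x - y) := by
  have h0 := hS.l0
  have h1 : lam ≤ 1 := by linarith [hS.l1]
  have hpi := Real.pi_pos
  have hA0 : 0 < Aa lam κ s1 := Real.rpow_pos_of_pos h0 _
  have hR0 : 0 < lam ^ (-β) := Real.rpow_pos_of_pos h0 _
  have hL0 : (0 : ℝ) < L := lt_of_lt_of_le (Real.rpow_pos_of_pos h0 _) hL
  refine KT_large L (Mm lam s1) (Mm_pos h0) _ ((Mm lam s1 : ℝ) * Aa lam κ s1) (lam ^ (-β)) ?_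
    hR0.le ?_ y0 x y hx hy
  · intro m j
    unfold th
    split_ifs with h2
    · rw [abs_mul, abs_of_pos hA0, Nat.abs_cast]
      refine mul_le_mul_of_nonneg_right ?_ hA0.le
      exact_mod_cast m.2.le
    · rw [abs_zero]
      positivity
  · have h2 : 2 * Real.pi / L ≤ lam ^ (2 + κ / 2 - 2 * s1) := by
      have h3 := hS.AL.trans (mul_le_mul_of_nonneg_left hL hA0.le)
      rw [div_le_iff₀ hL0]
      have h4 : Aa lam κ s1 ≤ lam ^ (2 + κ / 2 - 2 * s1) := by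
        unfold Aa
        exact Real.rpow_le_rpow_of_exponent_ge h0 h1 (by linarith)
      have h5 := mul_le_mul_of_nonneg_right h4 hL0.le
      have h6 : Aa lam κ s1 * L = lam ^ (2 + κ / 2 - s1) * L := rfl
      linarith
    have h3 := MA_le (κ := κ) h0 h1 hs1
    refine le_trans ?_ hS.cube
    have h4 : (Mm lam s1 : ℝ) * Aa lam κ s1 + 2 * Real.pi / L ≤
        3 * lam ^ (2 + κ / 2 - 2 * s1) := by linarith
    have h5 := mul_le_mul_of_nonneg_right h4 hR0.le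
    have h6 := mul_le_mul_of_nonneg_left h5 (by positivity : 0 ≤ 2 * ((2 : ℕ) : ℝ))
    linarith

theorem cen_mem (hS : Sm2 κ a s1 γ' β δ C1 g G r0 lam) {i : ℤ} (hi : i ∈ Ix E1 E2 lam γ') :
    (E1 - r0) + r0 / 2 ≤ cen lam γ' i ∧ cen lam γ' i + r0 / 2 ≤ E2 + r0 := by
  have hw : 0 < lam ^ γ' / 16 := by
    have := Real.rpow_pos_of_pos hS.l0 γ'
    positivity
  have hwr := hS.wr
  unfold cen
  unfold Ix at hi
  generalize lam ^ γ' / 16 = w at *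
  obtain ⟨h1, h2⟩ := Finset.mem_Icc.1 hi
  have h3 : (i : ℝ) ≤ E2 / (2 * w) := (Int.cast_le.2 h2).trans (Int.floor_le _)
  have h4 : E1 / (2 * w) < (i : ℝ) + 1 :=
    (Int.lt_floor_add_one _).trans_le (by exact_mod_cast Int.add_le_add_right h1 1)
  rw [le_div_iff₀ (by positivity)] at h3
  rw [div_lt_iff₀ (by positivity)] at h4
  constructor <;> linarith

theorem Ix_card (hS : Sm2 κ a s1 γ' β δ C1 g G r0 lam) (hE1 : 0 < E1) (hE12 : E1 < E2)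
    (hE2 : E2 < 8) (hγ : 13 / 6 ≤ γ') :
    ((Ix E1 E2 lam γ').card : ℝ) ≤ 128 * lam ^ (-γ') := by
  have h0 := hS.l0
  have h1 : lam ≤ 1 := by linarith [hS.l1]
  have hp : 0 < lam ^ γ' := Real.rpow_pos_of_pos hS.l0 γ'
  have hp1 : lam ^ γ' ≤ 1 := Real.rpow_le_one h0.le h1 (by linarith)
  have hw : 0 < lam ^ γ' / 16 := by positivity
  unfold Ix
  rw [Int.card_Icc, Real.rpow_neg h0.le]
  generalize lam ^ γ' = q at *
  have hab : ⌊E1 / (2 * (q / 16))⌋ ≤ ⌊E2 / (2 * (q / 16))⌋ :=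
    Int.floor_le_floor (div_le_div_of_nonneg_right hE12.le (by positivity))
  have h7 : (((⌊E2 / (2 * (q / 16))⌋ + 1 - ⌊E1 / (2 * (q / 16))⌋).toNat : ℕ) : ℝ) =
      (⌊E2 / (2 * (q / 16))⌋ : ℝ) - ⌊E1 / (2 * (q / 16))⌋ + 1 := by
    have h8 : (((⌊E2 / (2 * (q / 16))⌋ + 1 - ⌊E1 / (2 * (q / 16))⌋).toNat : ℕ) : ℤ) =
        ⌊E2 / (2 * (q / 16))⌋ - ⌊E1 / (2 * (q / 16))⌋ + 1 := by
      rw [Int.toNat_of_nonneg (by omega)]; ring
    have h9 := congrArg (fun z : ℤ => (z : ℝ)) h8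
    push_cast at h9
    exact h9
  rw [h7]
  have h8 : (⌊E2 / (2 * (q / 16))⌋ : ℝ) ≤ E2 / (2 * (q / 16)) := Int.floor_le _
  have h9 : (0 : ℝ) ≤ ⌊E1 / (2 * (q / 16))⌋ := by
    exact_mod_cast Int.floor_nonneg.2 (by positivity)
  have h10 : E2 / (2 * (q / 16)) = 8 * E2 * q⁻¹ := by field_simp; ring
  rw [h10] at h8
  have hq1 : 1 ≤ q⁻¹ := (one_le_inv₀ hp).2 hp1
  rw [h10]
  have h11 : 8 * E2 * q⁻¹ ≤ 64 * q⁻¹ := mul_le_mul_of_nonneg_right (by linarith) (by linarith)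
  linarith

theorem Bd_meas (hS : Sm2 κ a s1 γ' β δ C1 g G r0 lam) (L : ℕ) [NeZero L] :
    MeasurableSet (Bd L 2 lam κ s1 γ' C1 g G r0 E1 E2) := by
  have hp : 0 < lam ^ γ' := Real.rpow_pos_of_pos hS.l0 γ'
  exact Finset.measurableSet_biUnion _ fun i _ =>
    BW_meas _ _ _ _ _ _ _ _ _ _ (Real.rpow_pos_of_pos hS.l0 _) (by positivity)

theorem Bd_prob (hS : Sm2 κ a s1 γ' β δ C1 g G r0 lam)
    (hH : Hyp 2 μ κ a (E1 - r0) (E2 + r0) δ C1 s0 g G lam) (hC1 : 1 ≤ C1) (hs1 : 0 < s1)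
    (hs : s1 ≤ s0) (hsa : s1 ≤ a / 8)
    (hκa : κ = 1 / 3 - a) (hE1 : 0 < E1) (hE12 : E1 < E2) (hE2 : E2 < 8)
    (hγ : 13 / 6 ≤ γ') (hb : ∀ᵐ s ∂μ, |s| ≤ b)
    {L : ℕ} [NeZero L] (hL : lam ^ (-(7 / 3 : ℝ)) ≤ L) :
    (PL (T 2 L) μ).real (Bd L 2 lam κ s1 γ' C1 g G r0 E1 E2) ≤
      Real.exp (-(3 * (lam ^ (14 / 3 : ℝ) * (Fintype.card (T 2 L) : ℝ)))) := by
  have h0 := hS.l0
  have h1 : lam ≤ 1 := by linarith [hS.l1]
  have hη0 : 0 < lam ^ (2 + κ) := Real.rpow_pos_of_pos h0 _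
  have hw0 : 0 < lam ^ γ' / 16 := by
    have := Real.rpow_pos_of_pos h0 γ'
    positivity
  have hx0 : 0 < 12 * C1 * lam ^ s1 := by
    have := Real.rpow_pos_of_pos h0 s1
    positivity
  have hηw : lam ^ (2 + κ) ≤ lam ^ γ' / 16 := by linarith [hS.ηw]
  have hηL : lam ^ (-a) ≤ lam ^ (2 + κ) * L := by
    have h2 := mul_le_mul_of_nonneg_left hL hη0.le
    rw [← Real.rpow_add h0] at h2
    refine le_trans (le_of_eq ?_) h2
    congr 1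
    rw [hκa]; ring
  have hL0 : (0 : ℝ) ≤ L := Nat.cast_nonneg _
  have hwL : lam ^ (-a) ≤ lam ^ γ' / 16 * L :=
    hηL.trans (mul_le_mul_of_nonneg_right hηw hL0)
  set N : ℝ := (Fintype.card (T 2 L) : ℝ) with hN
  have hN0 : 0 < N := by rw [hN]; exact_mod_cast Fintype.card_pos
  have hone : ∀ i ∈ Ix E1 E2 lam γ', (PL (T 2 L) μ).real
      (BW (Kw L 2 lam κ s1) lam (lam ^ (2 + κ)) (lam ^ γ' / 16)
        (E1 - r0) (E2 + r0) G g (12 * C1 * lam ^ s1) (cen lam γ' i)) ≤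
      3 * Real.exp (-((12 * C1 * lam ^ s1) ^ 2 * (lam ^ (2 + κ)) ^ 2 / 32 * N)) := by
    intro i hi
    obtain ⟨c1, c2⟩ := cen_mem hS hi
    have hwr := hS.wr
    refine prob1 μ b hb (rep_KT _ (Mm_pos h0) _) lam _ _ _ _ G g _ _ hη0 hηw hx0 hS.xG hS.xg
      (m1 hS hH (by linarith) hs1 hs hκa hL) ?_ ?_
    · rw [hv_one]
      exact (hH (cen lam γ' i) ⟨by linarith, by linarith⟩ (lam ^ γ' / 16) hηw hS.wδ L hwL).2.2
    · intro u hu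
      rw [hv_one]
      exact (hH u ⟨by linarith [hu.1], by linarith [hu.2]⟩ (lam ^ (2 + κ)) le_rfl hS.ηδ L hηL).2.1
  unfold Bd
  refine (measureReal_biUnion_finset_le _ _).trans ((Finset.sum_le_sum hone).trans ?_)
  rw [Finset.sum_const, nsmul_eq_mul]
  -- the exponent
  have hexp : lam ^ (-a) + 3 * (lam ^ (14 / 3 : ℝ) * N) ≤
      (12 * C1 * lam ^ s1) ^ 2 * (lam ^ (2 + κ)) ^ 2 / 32 * N := by
    have e1 : lam ^ (14 / 3 - a) ≤ (lam ^ s1) ^ 2 * (lam ^ (2 + κ)) ^ 2 := by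
      rw [← Real.rpow_natCast, ← Real.rpow_natCast (lam ^ (2 + κ)), ← Real.rpow_mul h0.le,
        ← Real.rpow_mul h0.le, ← Real.rpow_add h0]
      refine Real.rpow_le_rpow_of_exponent_ge h0 h1 ?_
      push_cast
      rw [hκa]
      linarith
    have e2 : lam ^ (14 / 3 : ℝ) ≤ lam ^ (14 / 3 - a) :=
      Real.rpow_le_rpow_of_exponent_ge h0 h1 (by linarith)
    have e3 : 4 * lam ^ (14 / 3 - a) ≤ (12 * C1 * lam ^ s1) ^ 2 * (lam ^ (2 + κ)) ^ 2 / 32 := by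
      have f1 : (12 * C1 * lam ^ s1) ^ 2 * (lam ^ (2 + κ)) ^ 2 / 32 =
          9 / 2 * C1 ^ 2 * ((lam ^ s1) ^ 2 * (lam ^ (2 + κ)) ^ 2) := by ring
      rw [f1]
      have f2 : (1 : ℝ) ≤ C1 ^ 2 := one_le_pow₀ hC1
      have f3 : 4 * lam ^ (14 / 3 - a) ≤ 9 / 2 * C1 ^ 2 * lam ^ (14 / 3 - a) :=
        mul_le_mul_of_nonneg_right (by linarith) (Real.rpow_nonneg h0.le _)
      exact f3.trans (mul_le_mul_of_nonneg_left e1 (by positivity))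
    have e4 : lam ^ (-a) ≤ lam ^ (14 / 3 - a) * N := by
      have g1 : (lam ^ (-(7 / 3 : ℝ))) ^ 2 ≤ N := by
        have g2 : N = (L : ℝ) ^ 2 := by
          rw [hN, card_L]
        rw [g2]
        exact pow_le_pow_left₀ (Real.rpow_nonneg h0.le _) hL 2
      have g4 := mul_le_mul_of_nonneg_left g1 (Real.rpow_nonneg h0.le (14 / 3 - a))
      refine le_trans ?_ g4
      rw [← Real.rpow_natCast (lam ^ (-(7 / 3 : ℝ))), ← Real.rpow_mul h0.le, ← Real.rpow_add h0]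
      refine Real.rpow_le_rpow_of_exponent_ge h0 h1 ?_
      push_cast
      linarith
    have e5 := mul_le_mul_of_nonneg_right e3 hN0.le
    have e6 := mul_le_mul_of_nonneg_right e2 hN0.le
    linarith
  have hcard := Ix_card hS hE1 hE12 hE2 hγ
  have hpr := hS.pr
  calc ((Ix E1 E2 lam γ').card : ℝ) *
        (3 * Real.exp (-((12 * C1 * lam ^ s1) ^ 2 * (lam ^ (2 + κ)) ^ 2 / 32 * N))) ≤
        (128 * lam ^ (-γ')) * (3 * Real.exp (-(lam ^ (-a) + 3 * (lam ^ (14 / 3 : ℝ) * N)))) := by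
          refine mul_le_mul hcard ?_ (by positivity) (by
            have := Real.rpow_nonneg h0.le (-γ')
            positivity)
          refine mul_le_mul_of_nonneg_left (Real.exp_le_exp.2 (neg_le_neg hexp)) (by norm_num)
    _ = (384 * lam ^ (-γ')) * Real.exp (-(lam ^ (-a) + 3 * (lam ^ (14 / 3 : ℝ) * N))) := by ring
    _ ≤ Real.exp (lam ^ (-a)) * Real.exp (-(lam ^ (-a) + 3 * (lam ^ (14 / 3 : ℝ) * N))) :=
        mul_le_mul_of_nonneg_right hpr (Real.exp_pos _).le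
    _ = Real.exp (-(3 * (lam ^ (14 / 3 : ℝ) * N))) := by
        rw [← Real.exp_add]
        congr 1
        ring

theorem outside (hS : Sm2 κ a s1 γ' β δ C1 g G r0 lam) (hs1 : 0 < s1)
    (hr0 : 0 < r0) (hg : 0 < g) (hG : 0 < G) (γ : ℝ) (hγ : γ ≤ γ')
    {L : ℕ} [NeZero L] (hL : lam ^ (-(7 / 3 : ℝ)) ≤ L) (V : T 2 L → ℝ)
    (hV : V ∉ Bd L 2 lam κ s1 γ' C1 g G r0 E1 E2) (ψ : T 2 L → T 2 L → ℂ) (E : T 2 L → ℝ)
    (hE : EB lam V ψ E) (s t : ℝ) (hs : E1 ≤ s) (ht : t ≤ E2) (hst : lam ^ γ ≤ t - s) :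
    g / (16 * Real.pi) * (t - s) * (Fintype.card (T 2 L) : ℝ) ≤
      ((Finset.univ.filter fun j => s ≤ E j ∧ E j ≤ t).card : ℝ) ∧
    ((Finset.univ.filter fun j => s ≤ E j ∧ E j ≤ t).card : ℝ) ≤
      4 * G * (t - s) * (Fintype.card (T 2 L) : ℝ) ∧
    ∀ J : Finset (T 2 L), (∀ j ∈ J, s ≤ E j ∧ E j ≤ t ∧
      ∃ (B : Finset (T 2 L)) (y0 : T 2 L), (∀ x ∈ B, ∀ i, |((x - y0) i).valMinAbs| ≤ lam ^ (-β)) ∧
        lam ^ (s1 / 4) ≤ ∑ x ∈ B, ‖ψ j x‖ ^ 2) →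
      (J.card : ℝ) ≤ lam ^ (s1 / 4) *
        ((Finset.univ.filter fun j => s ≤ E j ∧ E j ≤ t).card : ℝ) := by
  have h0 := hS.l0
  have h1 : lam ≤ 1 := by linarith [hS.l1]
  have hpi := Real.pi_pos
  have hη0 : 0 < lam ^ (2 + κ) := Real.rpow_pos_of_pos h0 _
  have hq0 : 0 < lam ^ γ' := Real.rpow_pos_of_pos h0 γ'
  have hw0 : 0 < lam ^ γ' / 16 := by positivity
  have hc0 : 0 < lam ^ (s1 / 4) := Real.rpow_pos_of_pos h0 _
  set N : ℝ := (Fintype.card (T 2 L) : ℝ) with hN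
  have hN0 : 0 < N := by rw [hN]; exact_mod_cast Fintype.card_pos
  have h16 : 16 * (lam ^ γ' / 16) ≤ t - s := by
    have e1 : lam ^ γ' ≤ lam ^ γ := Real.rpow_le_rpow_of_exponent_ge h0 h1 hγ
    linarith
  have hwin : ∀ i : ℤ, ⌊s / (2 * (lam ^ γ' / 16))⌋ ≤ i → i ≤ ⌊t / (2 * (lam ^ γ' / 16))⌋ → _ :=
    fun i hi1 hi2 => by
      have hiI : i ∈ Ix E1 E2 lam γ' := by
        unfold Ix
        rw [Finset.mem_Icc]
        constructor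
        · exact (Int.floor_le_floor (div_le_div_of_nonneg_right hs (by positivity))).trans hi1
        · exact hi2.trans (Int.floor_le_floor (div_le_div_of_nonneg_right ht (by positivity)))
      have hVi : V ∉ BW (Kw L 2 lam κ s1) lam (lam ^ (2 + κ)) (lam ^ γ' / 16)
          (E1 - r0) (E2 + r0) G g (12 * C1 * lam ^ s1) (cen lam γ' i) := by
        intro hbad
        exact hV (Set.mem_biUnion (Finset.mem_coe.2 hiI) hbad)
      obtain ⟨c1, c2⟩ := cen_mem hS hiI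
      exact good1 (rep_KT _ (Mm_pos h0) _) hη0 hw0 hVi hE (r0 / 2) (lam ^ (s1 / 4)) (lam ^ (-β))
        (lam ^ (s1 / 4) * (g / (8 * Real.pi))) (by positivity) hc0 c1 c2 hS.ηw hS.x5 hS.ηw3
        (fun y0 x y hx hy => ball hS hs1 hL y0 x y hx hy)
  have hcov := cover E (lam ^ γ' / 16) s t hw0 h16
    (fun j => ∃ (B : Finset (T 2 L)) (y0 : T 2 L),
      (∀ x ∈ B, ∀ i, |((x - y0) i).valMinAbs| ≤ lam ^ (-β)) ∧
        lam ^ (s1 / 4) ≤ ∑ x ∈ B, ‖ψ j x‖ ^ 2)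
    (lam ^ (s1 / 4) * (g / (8 * Real.pi)) * (lam ^ γ' / 16) * N)
    (g / (4 * Real.pi) * (lam ^ γ' / 16) * N) (by positivity)
    (fun i hi1 hi2 => (hwin i hi1 hi2).1) (fun i hi1 hi2 => (hwin i hi1 hi2).2.1)
  refine ⟨?_, ?_, fun J hJ => hcov.1 J hJ _ hc0.le (le_of_eq (by ring))⟩
  · have h2 := hcov.2 (by positivity)
    refine le_trans (le_of_eq ?_) h2
    field_simp
    ring
  · have h2 := cover_up E (lam ^ γ' / 16) s t hw0 h16 (4 * G * (lam ^ γ' / 16) * N)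
      (by positivity) (fun i hi1 hi2 => (hwin i hi1 hi2).2.2)
    refine h2.trans (le_of_eq ?_)
    field_simp

end

/-- the exponent -/
noncomputable def tau2 (β γ : ℝ) : ℝ := min (1 / 6) (min (7 / 3 - γ) (13 / 3 - 2 * β)) / 96

/-- **Quantitative localization lengths.** -/
theorem main2 (E1 E2 : ℝ) (hE12 : E1 < E2) (hO : Ok E1 E2) :
    ∃ c0 C0 : ℝ, 0 < c0 ∧ 0 < C0 ∧ ∀ b v0 β γ : ℝ, 0 < v0 → β < 13 / 6 → γ < 7 / 3 →
    ∃ l0 : ℝ, 0 < l0 ∧ ∀ (μ : Measure ℝ) [IsProbabilityMeasure μ],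
      (∀ᵐ s ∂μ, |s| ≤ b) → v0 ≤ ∫ s, (s - ∫ t, t ∂μ) ^ 2 ∂μ →
      ∀ lam : ℝ, 0 < lam → lam < l0 →
      ∀ (L : ℕ) [NeZero L], lam ^ (-(7 / 3 : ℝ)) ≤ L →
      ∃ Bad : Set (T 2 L → ℝ), MeasurableSet Bad ∧
        (PL (T 2 L) μ).real Bad ≤ Real.exp (-(3 * (lam ^ (14 / 3 : ℝ) * (Fintype.card (T 2 L) : ℝ)))) ∧
        ∀ V, V ∉ Bad → ∀ (ψ : T 2 L → T 2 L → ℂ) (E : T 2 L → ℝ), EB lam V ψ E →
          ∀ s t : ℝ, E1 ≤ s → t ≤ E2 → lam ^ γ ≤ t - s →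
            c0 * (t - s) * (Fintype.card (T 2 L) : ℝ) ≤
              ((Finset.univ.filter fun j => s ≤ E j ∧ E j ≤ t).card : ℝ) ∧
            ((Finset.univ.filter fun j => s ≤ E j ∧ E j ≤ t).card : ℝ) ≤
              C0 * (t - s) * (Fintype.card (T 2 L) : ℝ) ∧
            ∀ J : Finset (T 2 L), (∀ j ∈ J, s ≤ E j ∧ E j ≤ t ∧
              ∃ (B : Finset (T 2 L)) (y0 : T 2 L),
                (∀ x ∈ B, ∀ i, |((x - y0) i).valMinAbs| ≤ lam ^ (-β)) ∧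
                  lam ^ tau2 β γ ≤ ∑ x ∈ B, ‖ψ j x‖ ^ 2) →
              (J.card : ℝ) ≤ lam ^ tau2 β γ *
                ((Finset.univ.filter fun j => s ≤ E j ∧ E j ≤ t).card : ℝ) := by
  obtain ⟨r0, hr0pos, hOr⟩ := ok_room E1 E2 hO
  obtain ⟨g, G, hg, hG, hgn⟩ := gn2 (E1 - r0) (E2 + r0) (by linarith) hOr
  refine ⟨g / (16 * Real.pi), 4 * G, by have := Real.pi_pos; positivity, by positivity, ?_⟩
  intro b v0 β γ hv0 hβ hγ
  obtain ⟨κ, γ', ha, ha8, hκ, hκ4, hγ1, hγ2, hγγ, hγa, hβa⟩ := params2 β γ hβ hγ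
  obtain ⟨δ, C1, hδ, hδ1, hC1, hgn2⟩ := hgn b v0 κ (aa2 β γ) hv0 (by linarith) (by linarith) ha
  have htau : tau2 β γ = aa2 β γ / 12 / 4 := by unfold tau2 aa2; ring
  have hs0 : (1 - 3 * κ) / 32 = 3 * aa2 β γ / 32 := by rw [hκ]; ring
  rw [htau]
  rw [hs0] at hgn2
  obtain ⟨l0, hl0, hsm⟩ := mk_sm2 κ (aa2 β γ) (aa2 β γ / 12) γ' β δ C1 g G r0 ha ha8 hκ
    (by linarith) (by linarith) hγ1 hγ2 hγa hβa hδ (by linarith) hg hG hr0pos
  refine ⟨l0, hl0, ?_⟩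
  intro μ _ hb hv lam h1 h2 L _ hL
  have hS := hsm lam h1 h2
  have hH : Hyp 2 μ κ (aa2 β γ) (E1 - r0) (E2 + r0) δ C1 (3 * aa2 β γ / 32) g G lam :=
    fun E hE η q1 q2 L _ hL => hgn2 μ hb hv E hE lam η h1 hS.lδ q1 q2 L hL
  refine ⟨Bd L 2 lam κ (aa2 β γ / 12) γ' C1 g G r0 E1 E2, Bd_meas hS L, ?_, ?_⟩
  · exact Bd_prob hS hH hC1 (by linarith) (by linarith) (by linarith) hκ hO.pos hE12 hO.lt8 hγ1 hb hL
  · intro V hV ψ E hE s t hs ht hst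
    exact outside hS (by linarith) hr0pos hg hG γ hγγ hL V hV ψ E hE s t hs ht hst

end Pool.Agent.Zk71.LQ2
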