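import Pool.Agent.Zk71.LQ2.Siz

/-! Quantitative diffusion bound on tori of all sizes in two dimensions: general laws. -/

set_option autoImplicit false
set_option linter.unusedSectionVars false

open scoped BigOperators Topology
open MeasureTheory Filter

namespace Pool.Agent.Zk71.LQ2

open Pool.Agent.Zk11.QD
open Pool.Agent.Zk60.LQ (norm_law int_af)
open Pool.Agent.W788.MFP.Four (T e NN e_comm e_zero NN_pos)
open Pool.Agent.Zk60.LL.Fin (small_rpow)
open Pool.Agent.Zk71.D2 (Ok)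

theorem ok_room (F1 F2 : ℝ) (hO : Ok F1 F2) : ∃ r : ℝ, 0 < r ∧ Ok (F1 - r) (F2 + r) := by
  rcases hO with ⟨h1, h2⟩ | ⟨h1, h2⟩
  · refine ⟨min F1 (4 - F2) / 2, ?_, Or.inl ⟨?_, ?_⟩⟩
    · have := lt_min h1 (by linarith : 0 < 4 - F2)
      positivity
    · linarith [min_le_left F1 (4 - F2)]
    · linarith [min_le_right F1 (4 - F2)]
  · refine ⟨min (F1 - 4) (8 - F2) / 2, ?_, Or.inr ⟨?_, ?_⟩⟩
    · have := lt_min (by linarith : 0 < F1 - 4) (by linarith : 0 < 8 - F2)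
      positivity
    · linarith [min_le_left (F1 - 4) (8 - F2)]
    · linarith [min_le_right (F1 - 4) (8 - F2)]

theorem gn2 (F1 F2 : ℝ) (hF12 : F1 ≤ F2) (hO : Ok F1 F2) :
    ∃ g G : ℝ, 0 < g ∧ 0 < G ∧ ∀ b v0 κ a : ℝ, 0 < v0 → 0 < κ → κ < 1 / 3 → 0 < a →
    ∃ δ C1 : ℝ, 0 < δ ∧ δ ≤ 1 ∧ 1 ≤ C1 ∧ ∀ (μ : Measure ℝ) [IsProbabilityMeasure μ],
      (∀ᵐ s ∂μ, |s| ≤ b) → v0 ≤ ∫ s, (s - ∫ t, t ∂μ) ^ 2 ∂μ → ∀ E ∈ Set.Icc F1 F2,
      ∀ lam η : ℝ, 0 < lam → lam < δ → lam ^ (2 + κ) ≤ η → η ≤ δ * lam ^ 2 →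
      ∀ (L : ℕ) [NeZero L], lam ^ (-a) ≤ η * L →
        (∀ p : T 2 L, pp p ≤ δ * lam ^ 4 →
          ‖(η : ℂ) * ∑ x, e p x *
            ((∫ V, ‖uu ((E : ℂ) + η * Complex.I) lam V x‖ ^ 2 ∂(PL (T 2 L) μ) : ℝ) : ℂ)‖ ≤
            C1 / (1 + pp p / (lam ^ 2 * η)) + C1 * lam ^ ((1 - 3 * κ) / 32)) ∧
        g ≤ η * ∑ x : T 2 L,
          ∫ V, ‖uu ((E : ℂ) + η * Complex.I) lam V x‖ ^ 2 ∂(PL (T 2 L) μ) ∧
        η * ∑ x : T 2 L,
          ∫ V, ‖uu ((E : ℂ) + η * Complex.I) lam V x‖ ^ 2 ∂(PL (T 2 L) μ) ≤ G := by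
  obtain ⟨rr, hrr, hO2⟩ := ok_room F1 F2 hO
  obtain ⟨g, G, hg, hG, hmain0⟩ := tqs2 (F1 - rr) (F2 + rr) (by linarith) hO2
  refine ⟨g, G, hg, hG, ?_⟩
  intro b v0 κ a hv0 hκ0 hκ1 ha
  obtain ⟨B, hB⟩ : ∃ B : ℝ, B = |b| + 1 := ⟨_, rfl⟩
  have hB1 : 1 ≤ B := by have := abs_nonneg b; linarith
  have hB0 : 0 < B := by linarith
  have hsv0 : 0 < Real.sqrt v0 := Real.sqrt_pos.2 hv0
  obtain ⟨κ', hκ'⟩ : ∃ κ' : ℝ, κ' = (κ + 1 / 3) / 2 := ⟨_, rfl⟩
  have hκ'1 : κ' < 1 / 3 := by rw [hκ']; linarith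
  have hκκ' : 0 < κ' - κ := by rw [hκ']; linarith
  have hκ'0 : 0 < κ' := by linarith
  obtain ⟨δ0, C1, hδ0, hδ01, hC1, hmain⟩ := hmain0 (2 * B / Real.sqrt v0) κ' (a / 2) hκ'0 hκ'1
    (by linarith)
  obtain ⟨l1, hl1, hl1'⟩ := small_rpow (κ' - κ) (1 / (2 * B) ^ (2 + κ')) hκκ' (by positivity)
  obtain ⟨l2, hl2, hl2'⟩ := small_rpow (a / 2) (Real.sqrt v0 ^ (a / 2)) (by linarith)
    (by positivity)
  obtain ⟨δ, hδ⟩ : ∃ δ : ℝ, δ = min (min (δ0 / (2 * B)) (min (δ0 * v0) (δ0 * v0 ^ 2)))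
    (min (min 1 l1) (min l2 (rr / B))) := ⟨_, rfl⟩
  have hδpos : 0 < δ := by
    rw [hδ]
    exact lt_min (lt_min (by positivity) (lt_min (by positivity) (by positivity)))
      (lt_min (lt_min one_pos hl1) (lt_min hl2 (by positivity)))
  have d1 : δ ≤ δ0 / (2 * B) := by rw [hδ]; exact (min_le_left _ _).trans (min_le_left _ _)
  have d2 : δ ≤ δ0 * v0 := by
    rw [hδ]; exact (min_le_left _ _).trans ((min_le_right _ _).trans (min_le_left _ _))
  have d3 : δ ≤ δ0 * v0 ^ 2 := by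
    rw [hδ]; exact (min_le_left _ _).trans ((min_le_right _ _).trans (min_le_right _ _))
  have d4 : δ ≤ 1 := by
    rw [hδ]; exact (min_le_right _ _).trans ((min_le_left _ _).trans (min_le_left _ _))
  have d5 : δ ≤ l1 := by
    rw [hδ]; exact (min_le_right _ _).trans ((min_le_left _ _).trans (min_le_right _ _))
  have d6 : δ ≤ l2 := by
    rw [hδ]; exact (min_le_right _ _).trans ((min_le_right _ _).trans (min_le_left _ _))
  have d7 : δ ≤ rr / B := by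
    rw [hδ]; exact (min_le_right _ _).trans ((min_le_right _ _).trans (min_le_right _ _))
  rw [le_div_iff₀ (by positivity)] at d7 d1
  clear hδ
  have hs0 : 0 < (1 - 3 * κ') / 16 := by linarith
  have hs1 : (1 - 3 * κ') / 16 ≤ 1 := by linarith
  obtain ⟨C2, hC2⟩ : ∃ C2 : ℝ, C2 = 4 * B ^ 2 * C1 + 1 := ⟨_, rfl⟩
  have hB2 : 1 ≤ B ^ 2 := one_le_pow₀ hB1
  have hBC : 0 < B ^ 2 * C1 := by positivity
  refine ⟨δ, C2, hδpos, d4, by rw [hC2]; linarith, ?_⟩
  have hs40 : (1 - 3 * κ) / 32 = (1 - 3 * κ') / 16 := by rw [hκ']; ring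
  rw [hs40]
  intro μ _ hb hV E hE lam η hl0 hlδ hηκ hηδ L _ hL
  obtain ⟨v, m, hvne, hv1, hv2, hmB, hpr, n1, n2, n3⟩ := norm_law μ b v0 hv0 hb hV
  rw [← hB] at hv2 hmB n1
  have hvpos : 0 < v := lt_of_lt_of_le hsv0 hv1
  have hl1'' : lam ≤ 1 := hlδ.le.trans d4
  -- conditions
  have hv1sq : v0 ≤ v ^ 2 := by
    have := pow_le_pow_left₀ hsv0.le hv1 2
    rwa [Real.sq_sqrt hv0.le] at this
  have q1 : E - lam * m ∈ Set.Icc (F1 - rr) (F2 + rr) := by
    have h1 : |lam * m| ≤ rr := by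
      rw [abs_mul, abs_of_pos hl0]
      exact (mul_le_mul hlδ.le hmB (abs_nonneg _) hδpos.le).trans d7
    have h2 := abs_le.1 h1
    exact ⟨by linarith [hE.1, h2.2], by linarith [hE.2, h2.1]⟩
  have q2 : lam * v < δ0 := by
    have h1 : lam * v ≤ lam * (2 * B) := mul_le_mul_of_nonneg_left hv2 hl0.le
    have h2 : lam * (2 * B) < δ * (2 * B) := mul_lt_mul_of_pos_right hlδ (by positivity)
    linarith
  have q3 : (lam * v) ^ (2 + κ') ≤ η := by
    refine le_trans ?_ hηκ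
    have h1 : (lam * v) ^ (2 + κ') ≤ (lam * (2 * B)) ^ (2 + κ') :=
      Real.rpow_le_rpow (by positivity) (mul_le_mul_of_nonneg_left hv2 hl0.le) (by linarith)
    refine h1.trans ?_
    rw [Real.mul_rpow hl0.le (by positivity)]
    have h2 := hl1' lam hl0 (lt_of_lt_of_le hlδ d5)
    rw [le_div_iff₀ (by positivity)] at h2
    have h3 : lam ^ (2 + κ') = lam ^ (2 + κ) * lam ^ (κ' - κ) := by
      rw [← Real.rpow_add hl0]; congr 1; ring
    rw [h3, mul_assoc]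
    exact mul_le_of_le_one_right (by positivity) h2
  have q4 : η ≤ δ0 * (lam * v) ^ 2 := by
    refine hηδ.trans ?_
    have h1 : δ0 * (lam * v) ^ 2 = δ0 * v ^ 2 * lam ^ 2 := by ring
    rw [h1]
    refine mul_le_mul_of_nonneg_right (d2.trans ?_) (by positivity)
    exact mul_le_mul_of_nonneg_left hv1sq hδ0.le
  have q5 : (lam * v) ^ (-(a / 2)) ≤ η * L := by
    refine le_trans ?_ hL
    have h1 : (lam * v) ^ (-(a / 2)) ≤ (lam * Real.sqrt v0) ^ (-(a / 2)) :=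
      Real.rpow_le_rpow_of_nonpos (by positivity) (mul_le_mul_of_nonneg_left hv1 hl0.le)
        (by linarith)
    refine h1.trans ?_
    rw [Real.mul_rpow hl0.le hsv0.le]
    have h2 := hl2' lam hl0 (lt_of_lt_of_le hlδ d6)
    have h3 : lam ^ (-a) = lam ^ (-(a / 2)) * lam ^ (-(a / 2)) := by
      rw [← Real.rpow_add hl0]; congr 1; ring
    rw [h3]
    refine mul_le_mul_of_nonneg_left ?_ (by positivity)
    rw [Real.rpow_neg hsv0.le, Real.rpow_neg hl0.le]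
    exact inv_anti₀ (by positivity) h2
  obtain ⟨hA, hBb, hBc⟩ := hmain (μ.map (af v m hvne)) n1 n2 n3 (E - lam * m) q1 (lam * v) η
    (by positivity) q2 q3 q4 L q5
  have ez : (((E - lam * m : ℝ)) : ℂ) + η * Complex.I =
      ((E : ℂ) + η * Complex.I) - ((lam * m : ℝ) : ℂ) := by
    push_cast; ring
  rw [ez] at hA hBb hBc
  simp only [int_af μ ((E : ℂ) + η * Complex.I) lam v m hvne] at hA hBb hBc
  have hη0 : 0 < η := lt_of_lt_of_le (Real.rpow_pos_of_pos hl0 _) hηκ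
  constructor
  · intro p hp
    have hpp := pp_nonneg p
    have hp' : pp p ≤ δ0 * (lam * v) ^ 4 := by
      refine hp.trans ?_
      have h1 : δ0 * (lam * v) ^ 4 = δ0 * (v ^ 2) ^ 2 * lam ^ 4 := by ring
      rw [h1]
      refine mul_le_mul_of_nonneg_right (d3.trans ?_) (by positivity)
      exact mul_le_mul_of_nonneg_left (pow_le_pow_left₀ hv0.le hv1sq 2) hδ0.le
    refine (hA p hp').trans (add_le_add ?_ ?_)
    · have h1 : (1 + pp p / (lam ^ 2 * η)) / (4 * B ^ 2) ≤ 1 + pp p / ((lam * v) ^ 2 * η) := by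
        rw [add_div]
        refine add_le_add ?_ ?_
        · rw [div_le_one (by positivity)]
          linarith
        · rw [div_div]
          refine div_le_div_of_nonneg_left hpp (by positivity) ?_
          have h2 : v ^ 2 ≤ (2 * B) ^ 2 := pow_le_pow_left₀ hvpos.le hv2 2
          calc (lam * v) ^ 2 * η = lam ^ 2 * η * v ^ 2 := by ring
            _ ≤ lam ^ 2 * η * (2 * B) ^ 2 := mul_le_mul_of_nonneg_left h2 (by positivity)
            _ = _ := by ring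
      have h2 : C1 / (1 + pp p / ((lam * v) ^ 2 * η)) ≤
          C1 / ((1 + pp p / (lam ^ 2 * η)) / (4 * B ^ 2)) :=
        div_le_div_of_nonneg_left hC1.le (by positivity) h1
      refine h2.trans ?_
      rw [div_div_eq_mul_div]
      apply div_le_div_of_nonneg_right _ (by positivity)
      rw [hC2]
      linarith
    · have h1 : (lam * v) ^ ((1 - 3 * κ') / 16) = lam ^ ((1 - 3 * κ') / 16) *
          v ^ ((1 - 3 * κ') / 16) := Real.mul_rpow hl0.le hvpos.le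
      have h2 : v ^ ((1 - 3 * κ') / 16) ≤ 2 * B := by
        have h3 : v ^ ((1 - 3 * κ') / 16) ≤ (2 * B) ^ ((1 - 3 * κ') / 16) :=
          Real.rpow_le_rpow hvpos.le hv2 hs0.le
        have h4 : (2 * B) ^ ((1 - 3 * κ') / 16) ≤ (2 * B) ^ (1 : ℝ) :=
          Real.rpow_le_rpow_of_exponent_le (by linarith) hs1
        rw [Real.rpow_one] at h4
        exact h3.trans h4
      have h3 : 0 < lam ^ ((1 - 3 * κ') / 16) := by positivity
      rw [h1]
      calc C1 * (lam ^ ((1 - 3 * κ') / 16) * v ^ ((1 - 3 * κ') / 16)) ≤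
            C1 * (lam ^ ((1 - 3 * κ') / 16) * (2 * B)) :=
            mul_le_mul_of_nonneg_left (mul_le_mul_of_nonneg_left h2 h3.le) hC1.le
        _ = (2 * B * C1) * lam ^ ((1 - 3 * κ') / 16) := by ring
        _ ≤ C2 * lam ^ ((1 - 3 * κ') / 16) := by
            refine mul_le_mul_of_nonneg_right ?_ h3.le
            rw [hC2]
            have : B * C1 ≤ B ^ 2 * C1 := by
              refine mul_le_mul_of_nonneg_right ?_ hC1.le
              nlinarith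
            linarith
  · exact ⟨hBb, hBc⟩

end Pool.Agent.Zk71.LQ2
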