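import Pool.Agent.Zk71.LQ2.Ev
import Pool.Agent.Zk60.LQ.Gn

/-! The self-consistent equation on tori in two dimensions, quantitatively. -/

set_option autoImplicit false
set_option linter.unusedSectionVars false

open scoped BigOperators Topology
open MeasureTheory Filter

namespace Pool.Agent.Zk71.LQ2

open Pool.Agent.Zk11.QD Pool.Agent.Zk71.DR Pool.Agent.Zk71.D2
open Pool.Agent.Zk60.LQ (Ga_err)
open Pool.Agent.W788.MFP.Four (T e NN adj adj_neg e_comm e_add_left e_add e_zero e_neg e_neg_left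
  e_normSq sum_e NN_pos card_T e_single)

/-- uniform convergence to the boundary values -/
theorem bd_unif {E1 E2 : ℝ} {f : ℂ → ℂ} {g : ℝ → ℂ}
    (hl : ∀ E ∈ Set.Icc E1 E2, Tendsto f (𝓝[{w : ℂ | 0 < w.im}] (E : ℂ)) (𝓝 (g E)))
    (hc : ContinuousOn g (Set.Icc E1 E2)) (ε : ℝ) (hε : 0 < ε) :
    ∃ ρ : ℝ, 0 < ρ ∧ ∀ E ∈ Set.Icc E1 E2, ∀ w : ℂ, 0 < w.im → ‖w - E‖ ≤ ρ → ‖f w - g E‖ ≤ ε := by
  by_contra hcon
  push Not at hcon
  have hseq := fun n : ℕ => hcon (1 / ((n : ℝ) + 1)) (by positivity)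
  choose En hEn w hw hwE herr using hseq
  obtain ⟨E, hE, φ, hφ, hlim⟩ := (isCompact_Icc (a := E1) (b := E2)).tendsto_subseq hEn
  have hg : Tendsto (fun n => g (En (φ n))) atTop (𝓝 (g E)) := by
    have h1 : Tendsto (fun n => En (φ n)) atTop (𝓝[Set.Icc E1 E2] E) :=
      tendsto_nhdsWithin_iff.2 ⟨hlim, Eventually.of_forall fun n => hEn (φ n)⟩
    exact (hc E hE).tendsto.comp h1
  have hinv : Tendsto (fun n : ℕ => 1 / ((φ n : ℝ) + 1)) atTop (𝓝 0) :=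
    tendsto_one_div_add_atTop_nhds_zero_nat.comp hφ.tendsto_atTop
  have hw' : Tendsto (fun n => w (φ n)) atTop (𝓝[{w : ℂ | 0 < w.im}] (E : ℂ)) := by
    rw [tendsto_nhdsWithin_iff]
    refine ⟨?_, Eventually.of_forall fun n => hw (φ n)⟩
    have h1 : Tendsto (fun n => w (φ n) - (En (φ n) : ℂ)) atTop (𝓝 0) := by
      rw [tendsto_zero_iff_norm_tendsto_zero]
      exact squeeze_zero (fun _ => norm_nonneg _) (fun n => hwE (φ n)) hinv
    have h2 : Tendsto (fun n => ((En (φ n) : ℝ) : ℂ)) atTop (𝓝 (E : ℂ)) :=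
      (Complex.continuous_ofReal.tendsto _).comp hlim
    have h3 := h1.add h2
    rw [zero_add] at h3
    refine h3.congr fun n => ?_
    ring
  have hf := (hl E hE).comp hw'
  have hd := hf.sub hg
  rw [sub_self] at hd
  have h4 := (Metric.tendsto_nhds.1 hd) ε hε
  obtain ⟨n, hn⟩ := h4.exists
  rw [dist_zero_right] at hn
  exact absurd hn (not_lt.2 (herr (φ n)).le)

theorem min_pos (F1 F2 : ℝ) (hF : F1 ≤ F2) (f : ℝ → ℂ) (hc : ContinuousOn f (Set.Icc F1 F2))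
    (hp : ∀ E ∈ Set.Icc F1 F2, 0 < (f E).im) :
    ∃ c : ℝ, 0 < c ∧ ∀ E ∈ Set.Icc F1 F2, c ≤ (f E).im := by
  obtain ⟨E0, hE0, hmin⟩ := (isCompact_Icc (a := F1) (b := F2)).exists_isMinOn
    ⟨F1, le_rfl, hF⟩ (Complex.continuous_im.comp_continuousOn hc)
  exact ⟨(f E0).im, hp E0 hE0, fun E hE => hmin hE⟩

theorem setup2 (F1 F2 : ℝ) (hF : F1 ≤ F2) (hO : Ok F1 F2) :
    ∃ (gm hm δ Bm C4 : ℝ) (M0 : ℝ → ℕ), 0 < gm ∧ 0 < hm ∧ 0 < δ ∧ 1 ≤ Bm ∧ 0 ≤ C4 ∧
      ∀ E ∈ Set.Icc F1 F2, ∀ σ η : ℝ, 0 < σ → σ ≤ δ → 0 < η → η ≤ δ →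
      ∀ (L : ℕ) [NeZero L], M0 η ≤ L →
      ∀ m : ℂ, MD 2 L ((E : ℂ) + η * Complex.I) σ m → ‖m‖ ≤ Bm ∧ gm / 2 ≤ m.im ∧
        (∀ j, hm / 2 ≤ Qv 2 L ((E : ℂ) + η * Complex.I) σ m j) ∧
        N4 2 L ((E : ℂ) + η * Complex.I) σ m ≤ C4 * (1 + Real.log (1 / η)) ^ 3 := by
  have hpi := Real.pi_pos
  obtain ⟨rb, C0, hbv⟩ := bv2 F1 F2 hF hO
  obtain ⟨C4, hC40, hC4⟩ := n4all hbv
  have hrb0 := hbv.r0
  have hrb1 := hbv.r1
  have hC00 := hbv.C0
  obtain ⟨gm, hgm, hgm'⟩ := min_pos F1 F2 hF g2 hbv.cg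
    (fun E hE => g2_pos E (hO.pt E hE.1 hE.2))
  obtain ⟨hm, hhm, hhm'⟩ := min_pos F1 F2 hF h2 hbv.ch
    (fun E hE => h2_pos E (hO.pt E hE.1 hE.2))
  set ε0 : ℝ := min 1 (min (gm / 4) (hm / 4)) with hε0
  have hε00 : 0 < ε0 := lt_min one_pos (lt_min (by positivity) (by positivity))
  have hε01 : ε0 ≤ 1 := min_le_left _ _
  have hε0g : ε0 ≤ gm / 4 := (min_le_right _ _).trans (min_le_left _ _)
  have hε0h : ε0 ≤ hm / 4 := (min_le_right _ _).trans (min_le_right _ _)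
  obtain ⟨ρ1, hρ1, hu1⟩ := bd_unif hbv.lg hbv.cg ε0 hε00
  obtain ⟨ρ2, hρ2, hu2⟩ := bd_unif hbv.lh hbv.ch ε0 hε00
  set D : ℝ := 64 * Real.pi * (1 + 2) with hD
  have hD0 : 0 < D := by positivity
  have hM : ∀ η : ℝ, ∃ M0 : ℕ, 0 < η → (∀ (M : ℕ) [NeZero M], M0 ≤ M →
      ∀ w ∈ Rg F1 F2 rb, η ≤ w.im → ∑ x : T 2 M, ‖kc (rv w) x‖ ^ 4 ≤
        C4 * (1 + Real.log (1 / w.im)) ^ 2) ∧ (1 / η) ^ 8 ≤ M0 := by
    intro η
    by_cases hη : 0 < η
    · obtain ⟨M0, hM0⟩ := hC4 η hη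
      refine ⟨max M0 ⌈(1 / η) ^ 8⌉₊, fun _ => ⟨?_, ?_⟩⟩
      · intro M _ h
        exact hM0 M ((le_max_left _ _).trans h)
      · refine (Nat.le_ceil _).trans ?_
        exact_mod_cast le_max_right _ _
    · exact ⟨0, fun h => absurd h hη⟩
  choose M0 hM0 using hM
  refine ⟨gm, hm, min 1 (min (ε0 / D) (min (min ρ1 ρ2) rb / 2)), C0 + 1, C4, M0, hgm, hhm, ?_,
    by linarith, hC40, ?_⟩
  · refine lt_min one_pos (lt_min (by positivity) ?_)
    have := lt_min (lt_min hρ1 hρ2) hrb0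
    positivity
  intro E hE σ η hσ hσδ hη hηδ L _ hL m hmd
  obtain ⟨hN, hη8⟩ := hM0 η hη
  have hσ1 : σ ≤ 1 := hσδ.trans (min_le_left _ _)
  have hη1 : η ≤ 1 := hηδ.trans (min_le_left _ _)
  have hηD : η ≤ ε0 / D := hηδ.trans ((min_le_right _ _).trans (min_le_left _ _))
  have hηρ : η ≤ min (min ρ1 ρ2) rb / 2 :=
    hηδ.trans ((min_le_right _ _).trans (min_le_right _ _))
  have hσρ : σ ≤ min (min ρ1 ρ2) rb / 2 :=
    hσδ.trans ((min_le_right _ _).trans (min_le_right _ _))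
  have hρa : min (min ρ1 ρ2) rb ≤ ρ1 := (min_le_left _ _).trans (min_le_left _ _)
  have hρb : min (min ρ1 ρ2) rb ≤ ρ2 := (min_le_left _ _).trans (min_le_right _ _)
  have hρc : min (min ρ1 ρ2) rb ≤ rb := min_le_right _ _
  set z : ℂ := (E : ℂ) + η * Complex.I with hz
  have hzim : z.im = η := by simp [hz]
  have hzre : z.re = E := by simp [hz]
  set w : ℂ := z + (σ : ℂ) ^ 2 * m with hw
  have hwim : η ≤ w.im := by
    rw [hw, w_im]
    unfold ss
    rw [hzim]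
    have := hmd.mim
    have : 0 ≤ σ ^ 2 * m.im := by positivity
    linarith
  have hw0 : 0 < w.im := hη.trans_le hwim
  have hmlap : m = Lap (GaL 2 L) w := m_lap hmd
  have hσm : ‖(σ : ℂ) ^ 2 * m‖ ≤ σ := by
    have h1 := m_apriori hmd hσ
    rw [norm_mul, norm_pow, Complex.norm_real, Real.norm_eq_abs, sq_abs]
    calc σ ^ 2 * ‖m‖ ≤ σ ^ 2 * (1 / σ) := by gcongr
      _ = σ := by field_simp
  -- the error
  have hLp := Lpos (L := L)
  have herr : 16 * Real.pi * (1 + ((2 : ℕ) : ℝ)) / L * (4 / η ^ 2) ≤ ε0 := by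
    have h1 : (1 / η) ^ 8 ≤ (L : ℝ) := hη8.trans (by exact_mod_cast hL)
    have h2 : 1 / (L : ℝ) ≤ η ^ 8 := by
      rw [div_le_iff₀ hLp]
      have h3 := mul_le_mul_of_nonneg_left h1 (by positivity : 0 ≤ η ^ 8)
      refine le_trans (le_of_eq ?_) h3
      field_simp
    calc 16 * Real.pi * (1 + ((2 : ℕ) : ℝ)) / L * (4 / η ^ 2) = D * (1 / L) * (1 / η ^ 2) := by
          rw [hD]; push_cast; ring
      _ ≤ D * η ^ 8 * (1 / η ^ 2) := by
          refine mul_le_mul_of_nonneg_right ?_ (by positivity)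
          exact mul_le_mul_of_nonneg_left h2 hD0.le
      _ = D * η ^ 5 * η := by field_simp
      _ ≤ D * 1 * η := by
          refine mul_le_mul_of_nonneg_right ?_ hη.le
          exact mul_le_mul_of_nonneg_left (pow_le_one₀ hη.le hη1) hD0.le
      _ ≤ ε0 := by
          rw [le_div_iff₀ hD0] at hηD
          linarith
  obtain ⟨ea, eb⟩ := Ga_err (d := 2) L (by omega) η hη hη1 w hwim
  have ea' := ea.trans herr
  have eb' := eb.trans herr
  rw [← hmlap] at ea'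
  have hwE : ‖w - E‖ ≤ min (min ρ1 ρ2) rb := by
    have e1 : w - E = η * Complex.I + (σ : ℂ) ^ 2 * m := by
      rw [hw, hz]; ring
    rw [e1]
    refine (norm_add_le _ _).trans ?_
    have e2 : ‖(η : ℂ) * Complex.I‖ = η := by
      rw [norm_mul, Complex.norm_I, mul_one, Complex.norm_real, Real.norm_eq_abs, abs_of_pos hη]
    rw [e2]
    linarith
  have hwR : w ∈ Rg F1 F2 rb := by
    have h1 := (Complex.abs_re_le_norm _).trans hwE
    have h2' := (Complex.abs_im_le_norm _).trans hwE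
    rw [Complex.sub_re, Complex.ofReal_re] at h1
    rw [Complex.sub_im, Complex.ofReal_im, sub_zero] at h2'
    have h3 := abs_le.1 h1
    have h4 := abs_le.1 h2'
    refine ⟨hw0, by linarith, by linarith [hE.1], by linarith [hE.2]⟩
  have hmB : ‖m‖ ≤ C0 + 1 := by
    have h1 := hbv.bd w hwR
    have e1 : m = (m - Lap (GG 2) w) + Lap (GG 2) w := by ring
    rw [e1]
    refine (norm_add_le _ _).trans ?_
    linarith
  have u1 := hu1 E hE w hw0 (hwE.trans hρa)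
  have u2 := hu2 E hE w hw0 (hwE.trans hρb)
  refine ⟨hmB, ?_, ?_, ?_⟩
  · have h1 : ‖m - g2 E‖ ≤ ε0 + ε0 := by
      have e1 : m - g2 E = (m - Lap (GG 2) w) + (Lap (GG 2) w - g2 E) := by ring
      rw [e1]
      exact (norm_add_le _ _).trans (add_le_add ea' u1)
    have h2' := (abs_le.1 ((Complex.abs_im_le_norm _).trans h1)).1
    rw [Complex.sub_im] at h2'
    have := hgm' E hE
    linarith
  · intro j
    rw [Q_lap hmd j]
    have h1 : ‖Lap (HaL 2 L) w - h2 E‖ ≤ ε0 + ε0 := by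
      have e1 : Lap (HaL 2 L) w - h2 E = (Lap (HaL 2 L) w - Lap (HH 2) w) +
        (Lap (HH 2) w - h2 E) := by ring
      rw [e1]
      exact (norm_add_le _ _).trans (add_le_add eb' u2)
    have h2' := (abs_le.1 ((Complex.abs_im_le_norm _).trans h1)).1
    rw [Complex.sub_im] at h2'
    have := hhm' E hE
    linarith
  · have h1 := hN L hL w hwR hwim
    have h2' : N4 2 L z σ m = ∑ x : T 2 L, ‖kc (rv w) x‖ ^ 4 := by
      unfold N4 rv
      rw [Mh_w]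
    rw [h2']
    refine h1.trans ?_
    have hw1 : w.im ≤ 1 := hwR.2.1.trans hrb1
    have h3 : 0 ≤ Real.log (1 / w.im) := Real.log_nonneg (by
      rw [le_div_iff₀ hw0]
      linarith)
    have h4 : Real.log (1 / w.im) ≤ Real.log (1 / η) :=
      Real.log_le_log (by positivity) (one_div_le_one_div_of_le hη hwim)
    refine mul_le_mul_of_nonneg_left ?_ hC40
    calc (1 + Real.log (1 / w.im)) ^ 2 ≤
          (1 + Real.log (1 / η)) ^ 2 := pow_le_pow_left₀ (by linarith) (by linarith) 2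
      _ ≤ (1 + Real.log (1 / η)) ^ 3 := pow_le_pow_right₀ (by linarith) (by norm_num)

end Pool.Agent.Zk71.LQ2
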