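import Pool.Agent.Zk71.LQ2.Core

/-! Quantitative diffusion bound on tori of all sizes in two dimensions. -/

set_option autoImplicit false
set_option linter.unusedSectionVars false

open scoped BigOperators Topology
open MeasureTheory Filter

namespace Pool.Agent.Zk71.LQ2

open Pool.Agent.Zk11.QD
open Pool.Agent.Zk60.LQ (pp_mul exp_small)
open Pool.Agent.W788.MFP.Four (T e NN e_comm e_zero NN_pos)
open Pool.Agent.Zk60.LL.Fin (small_rpow)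
open Pool.Agent.Zk71.D2 (Ok)

theorem tqs2 (F1 F2 : ℝ) (hF12 : F1 ≤ F2) (hO : Ok F1 F2) :
    ∃ g G : ℝ, 0 < g ∧ 0 < G ∧ ∀ b κ a : ℝ, 0 < κ → κ < 1 / 3 → 0 < a →
    ∃ δ C1 : ℝ, 0 < δ ∧ δ ≤ 1 ∧ 0 < C1 ∧ ∀ (μ : Measure ℝ) [IsProbabilityMeasure μ],
      (∀ᵐ s ∂μ, |s| ≤ b) → ∫ s, s ∂μ = 0 → ∫ s, s ^ 2 ∂μ = 1 → ∀ E ∈ Set.Icc F1 F2,
      ∀ σ η : ℝ, 0 < σ → σ < δ → σ ^ (2 + κ) ≤ η → η ≤ δ * σ ^ 2 →
      ∀ (L : ℕ) [NeZero L], σ ^ (-a) ≤ η * L →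
        (∀ p : T 2 L, pp p ≤ δ * σ ^ 4 →
          ‖(η : ℂ) * ∑ x, e p x *
            ((∫ V, ‖uu ((E : ℂ) + η * Complex.I) σ V x‖ ^ 2 ∂(PL (T 2 L) μ) : ℝ) : ℂ)‖ ≤
            C1 / (1 + pp p / (σ ^ 2 * η)) + C1 * σ ^ ((1 - 3 * κ) / 16)) ∧
        g ≤ η * ∑ x : T 2 L,
          ∫ V, ‖uu ((E : ℂ) + η * Complex.I) σ V x‖ ^ 2 ∂(PL (T 2 L) μ) ∧
        η * ∑ x : T 2 L,
          ∫ V, ‖uu ((E : ℂ) + η * Complex.I) σ V x‖ ^ 2 ∂(PL (T 2 L) μ) ≤ G := by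
  obtain ⟨g, G, hg, hG, htq0⟩ := tq2 F1 F2 hF12 hO
  refine ⟨g / 2, G + g / 2, by positivity, by positivity, ?_⟩
  intro b κ a hκ0 hκ1 ha
  obtain ⟨δ, C1, M0, hδ, hC1, htq⟩ := htq0 b κ hκ0 hκ1
  obtain ⟨l0, hl0, hl01, hexp⟩ := exp_small 2 (by omega) a ha
  refine ⟨min δ (min l0 (g / 2)), 2 * C1 + 1, lt_min hδ (lt_min hl0 (by positivity)),
    (min_le_right _ _).trans ((min_le_left _ _).trans hl01), by positivity, ?_⟩
  intro μ _ hb hm1 hm2 E hE σ η hσ0 hσδ hηκ hηδ L _ hL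
  have hσδ' : σ < δ := lt_of_lt_of_le hσδ (min_le_left _ _)
  have hσl0 : σ < l0 := lt_of_lt_of_le hσδ ((min_le_right _ _).trans (min_le_left _ _))
  have hσC : σ < g / 2 := lt_of_lt_of_le hσδ ((min_le_right _ _).trans (min_le_right _ _))
  have hσ1 : σ ≤ 1 := hσl0.le.trans hl01
  have hη0 : 0 < η := lt_of_lt_of_le (Real.rpow_pos_of_pos hσ0 _) hηκ
  have hηδ' : η ≤ δ * σ ^ 2 :=
    hηδ.trans (mul_le_mul_of_nonneg_right (min_le_left _ _) (by positivity))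
  have hη1 : η ≤ 1 := by
    refine hηδ.trans ?_
    have h1 : σ ^ 2 ≤ 1 := pow_le_one₀ hσ0.le hσ1
    calc min δ (min l0 (g / 2)) * σ ^ 2 ≤ 1 * 1 :=
          mul_le_mul ((min_le_right _ _).trans ((min_le_left _ _).trans hl01)) h1
            (by positivity) (by norm_num)
      _ = 1 := one_mul _
  have hη3 : σ ^ (3 : ℕ) ≤ η := by
    refine le_trans ?_ hηκ
    rw [← Real.rpow_natCast]
    exact Real.rpow_le_rpow_of_exponent_ge hσ0 hσ1 (by push_cast; linarith)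
  have herr := hexp σ η L hσ0 hσl0 hη3 hL
  -- the big torus
  obtain ⟨n, hn⟩ : ∃ n : ℕ, n = M0 η + 1 := ⟨_, rfl⟩
  have hL1 : 1 ≤ L := Nat.one_le_iff_ne_zero.2 (NeZero.ne L)
  have hnL : NeZero (n * L) := ⟨Nat.mul_ne_zero (by omega) (NeZero.ne L)⟩
  have hnL' : M0 η ≤ n * L := by
    have : n * 1 ≤ n * L := Nat.mul_le_mul_left n hL1
    omega
  obtain ⟨hA, hB, hBc⟩ := htq μ hb hm1 hm2 E hE σ η hσ0 hσδ' hηκ hηδ' (n * L) hnL'
  have hst := fun p : T 2 L =>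
    (Pool.Agent.Zk96.SZ.size_transfer_strong 2 (by omega) L n μ E η σ hη0 hη1 p).trans herr
  have hσp : σ ≤ σ ^ ((1 - 3 * κ) / 16) := by
    nth_rw 1 [← Real.rpow_one σ]
    exact Real.rpow_le_rpow_of_exponent_ge hσ0 hσ1 (by linarith)
  have hσp0 : 0 < σ ^ ((1 - 3 * κ) / 16) := Real.rpow_pos_of_pos hσ0 _
  constructor
  · intro p hp
    have h1 := hA _ (le_of_eq_of_le (pp_mul p)
      (hp.trans (mul_le_mul_of_nonneg_right (min_le_left _ _) (by positivity))))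
    rw [pp_mul p] at h1
    have h2 := norm_le_norm_add_norm_sub' ((η : ℂ) * ∑ x, e p x *
            ((∫ V, ‖uu ((E : ℂ) + η * Complex.I) σ V x‖ ^ 2 ∂(PL (T 2 L) μ) : ℝ) : ℂ))
        ((η : ℂ) * ∑ x : T 2 (n * L), e (fun i => ((n * (p i).val : ℕ) : ZMod (n * L))) x *
        ((∫ V, ‖uu ((E : ℂ) + η * Complex.I) σ V x‖ ^ 2 ∂(PL (T 2 (n * L)) μ) : ℝ) : ℂ))
    rw [norm_sub_rev] at h2
    refine (h2.trans (add_le_add h1 (hst p))).trans ?_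
    have hpp := pp_nonneg p
    have h3 : 0 ≤ pp p / (σ ^ 2 * η) := by positivity
    have h4 : C1 / (1 + pp p / (σ ^ 2 * η)) ≤ (2 * C1 + 1) / (1 + pp p / (σ ^ 2 * η)) :=
      div_le_div_of_nonneg_right (by linarith) (by positivity)
    have h5 : C1 * σ ^ ((1 - 3 * κ) / 16) + σ ≤ (2 * C1 + 1) * σ ^ ((1 - 3 * κ) / 16) := by
      have : 0 < C1 * σ ^ ((1 - 3 * κ) / 16) := by positivity
      linarith
    linarith
  · have h1 := hst 0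
    have e0 : ∀ (M : ℕ) [NeZero M], (η : ℂ) * ∑ x : T 2 M, e 0 x *
        ((∫ V, ‖uu ((E : ℂ) + η * Complex.I) σ V x‖ ^ 2 ∂(PL (T 2 M) μ) : ℝ) : ℂ) =
        ((η * ∑ x : T 2 M, ∫ V, ‖uu ((E : ℂ) + η * Complex.I) σ V x‖ ^ 2 ∂(PL (T 2 M) μ) : ℝ) :
          ℂ) := by
      intro M _
      push_cast
      congr 1
      refine Finset.sum_congr rfl fun x _ => ?_
      rw [e_comm, e_zero, one_mul]
    have e1 : (fun i => ((n * ((0 : T 2 L) i).val : ℕ) : ZMod (n * L))) = (0 : T 2 (n * L)) := by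
      funext i
      simp
    rw [e1, e0, e0, ← Complex.ofReal_sub, Complex.norm_real, Real.norm_eq_abs] at h1
    have h2 := (abs_le.1 h1).2
    have h3 := (abs_le.1 h1).1
    constructor
    · linarith
    · linarith

end Pool.Agent.Zk71.LQ2
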