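import Pool.Agent.Zk71.LQ2.Fm
import Pool.Agent.Zk71.LQ2.Cnt

/-! The whole spectrum in two dimensions. -/

set_option autoImplicit false
set_option linter.unusedSectionVars false

open scoped BigOperators Topology
open MeasureTheory Filter

namespace Pool.Agent.Zk71.LQ2

open Pool.Agent.W788.MFP.Four (T e NN NN_pos card_T)
open Pool.Agent.Zk11.QD
open Pool.Agent.Zk60.LL.Det (EB)
open Pool.Agent.Zk60.LL.Fin (small_rpow)
open Pool.Agent.Zk60.LQ (card_L edge_count)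
open Pool.Agent.Zk71.D2 (Ok)

theorem tau2_pos (β γ : ℝ) (hβ : β < 13 / 6) (hγ : γ < 7 / 3) : 0 < tau2 β γ := by
  unfold tau2
  have := lt_min (by norm_num : (0 : ℝ) < 1 / 6)
    (lt_min (by linarith : 0 < 7 / 3 - γ) (by linarith : 0 < 13 / 3 - 2 * β))
  positivity

theorem whole2 (b v0 β ε : ℝ) (hv0 : 0 < v0) (hβ : β < 13 / 6) (hε : 0 < ε) :
    ∃ l0 : ℝ, 0 < l0 ∧ ∀ (μ : Measure ℝ) [IsProbabilityMeasure μ],
      (∀ᵐ s ∂μ, |s| ≤ b) → v0 ≤ ∫ s, (s - ∫ t, t ∂μ) ^ 2 ∂μ →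
      ∀ lam : ℝ, 0 < lam → lam < l0 →
      ∀ (L : ℕ) [NeZero L], lam ^ (-(7 / 3 : ℝ)) ≤ L →
      ∃ Bad : Set (T 2 L → ℝ), MeasurableSet Bad ∧
        (PL (T 2 L) μ).real Bad ≤
          2 * Real.exp (-(3 * (lam ^ (14 / 3 : ℝ) * (Fintype.card (T 2 L) : ℝ)))) ∧
        ∀ V, V ∉ Bad → (∀ x, |V x| ≤ b) →
          ∀ (ψ : T 2 L → T 2 L → ℂ) (E : T 2 L → ℝ), EB lam V ψ E →
            ∀ J : Finset (T 2 L), (∀ j ∈ J, ∃ (B : Finset (T 2 L)) (y0 : T 2 L),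
                (∀ x ∈ B, ∀ i, |((x - y0) i).valMinAbs| ≤ lam ^ (-β)) ∧
                  lam ^ tau2 β 0 ≤ ∑ x ∈ B, ‖ψ j x‖ ^ 2) →
              (J.card : ℝ) ≤ ε * (Fintype.card (T 2 L) : ℝ) := by
  classical
  obtain ⟨x, hx⟩ : ∃ x : ℝ, x = min 1 ((ε / 32) ^ 2) := ⟨_, rfl⟩
  have hx0 : 0 < x := by rw [hx]; exact lt_min one_pos (by positivity)
  have hx1 : x ≤ 1 := by rw [hx]; exact min_le_left _ _
  have hsx : Real.sqrt x ≤ ε / 32 := by
    rw [Real.sqrt_le_left (by positivity), hx]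
    exact min_le_right _ _
  obtain ⟨c0, C0, hc0, hC0, hmain0⟩ := main2 (x / 2) (4 - x / 2) (by linarith)
    (Or.inl ⟨by linarith, by linarith⟩)
  obtain ⟨c0', C0', hc0', hC0', hmain0'⟩ := main2 (4 + x / 2) (8 - x / 2) (by linarith)
    (Or.inr ⟨by linarith, by linarith⟩)
  obtain ⟨l0, hl0, hmain⟩ := hmain0 b v0 β 0 hv0 hβ (by norm_num)
  obtain ⟨l0', hl0', hmain'⟩ := hmain0' b v0 β 0 hv0 hβ (by norm_num)
  obtain ⟨l1, hl1, h1⟩ := small_rpow (tau2 β 0) (ε / 8) (tau2_pos β 0 hβ (by norm_num))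
    (by positivity)
  obtain ⟨l2, hl2, h2⟩ := small_rpow (7 / 3) (ε / 32) (by norm_num) (by positivity)
  refine ⟨min (min (min l0 l0') (x / (2 * (|b| + 1)))) (min l1 l2),
    lt_min (lt_min (lt_min hl0 hl0') (by positivity)) (lt_min hl1 hl2), ?_⟩
  intro μ _ hb hv lam hlam0 hlam L _ hL
  simp only [lt_min_iff] at hlam
  obtain ⟨⟨⟨q1, q1'⟩, q2⟩, q3, q4⟩ := hlam
  obtain ⟨Bad, hmeas, hprob, hgood⟩ := hmain μ hb hv lam hlam0 q1 L hL
  obtain ⟨Bad', hmeas', hprob', hgood'⟩ := hmain' μ hb hv lam hlam0 q1' L hL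
  refine ⟨Bad ∪ Bad', hmeas.union hmeas', ?_, ?_⟩
  · have := measureReal_union_le (μ := PL (T 2 L) μ) Bad Bad'
    linarith
  intro V hV hVb ψ E hE J hJ
  have hV1 : V ∉ Bad := fun h => hV (Or.inl h)
  have hV2 : V ∉ Bad' := fun h => hV (Or.inr h)
  have hb0 : 0 ≤ b := (abs_nonneg _).trans (hVb 0)
  have hlb : lam * b ≤ x / 2 := by
    rw [lt_div_iff₀ (by positivity)] at q2
    have h3 := le_abs_self b
    nlinarith
  obtain ⟨k1, k2⟩ := edge_count (by omega : 1 ≤ 2) hE hlam0.le hVb x hx0 hx1 hlb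
  have k0 := mid_count hE hlam0.le hVb x hx0 (by linarith)
  obtain ⟨-, -, k3⟩ := hgood V hV1 ψ E hE (x / 2) (4 - x / 2) le_rfl le_rfl (by
    rw [Real.rpow_zero]; linarith)
  obtain ⟨-, -, k3'⟩ := hgood' V hV2 ψ E hE (4 + x / 2) (8 - x / 2) le_rfl le_rfl (by
    rw [Real.rpow_zero]; linarith)
  set N : ℝ := (Fintype.card (T 2 L) : ℝ) with hN
  have hNL : N = (L : ℝ) ^ 2 := card_L L
  have hL0 : (0 : ℝ) < L := lt_of_lt_of_le (Real.rpow_pos_of_pos hlam0 _) hL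
  have hN0 : (0 : ℝ) < N := by rw [hNL]; positivity
  have k4 := k3 (J.filter fun j => x / 2 ≤ E j ∧ E j ≤ 4 - x / 2) (fun j hj => by
    obtain ⟨h3, h4, h5⟩ := Finset.mem_filter.1 hj
    exact ⟨h4, h5, hJ j h3⟩)
  have k4' := k3' (J.filter fun j => 4 + x / 2 ≤ E j ∧ E j ≤ 8 - x / 2) (fun j hj => by
    obtain ⟨h3, h4, h5⟩ := Finset.mem_filter.1 hj
    exact ⟨h4, h5, hJ j h3⟩)
  have hcover : J ⊆ ((J.filter fun j => x / 2 ≤ E j ∧ E j ≤ 4 - x / 2) ∪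
      (J.filter fun j => 4 + x / 2 ≤ E j ∧ E j ≤ 8 - x / 2)) ∪
      ((Finset.univ.filter fun j => |E j - 4| ≤ x / 2) ∪
      ((Finset.univ.filter fun j => E j < x / 2) ∪
        (Finset.univ.filter fun j => 4 * ((2 : ℕ) : ℝ) - x / 2 < E j))) := by
    intro j hj
    rw [Finset.mem_union, Finset.mem_union, Finset.mem_union, Finset.mem_union, Finset.mem_filter,
      Finset.mem_filter, Finset.mem_filter, Finset.mem_filter, Finset.mem_filter]
    by_cases h3 : E j < x / 2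
    · exact Or.inr (Or.inr (Or.inl ⟨Finset.mem_univ _, h3⟩))
    · by_cases h4 : 4 * ((2 : ℕ) : ℝ) - x / 2 < E j
      · exact Or.inr (Or.inr (Or.inr ⟨Finset.mem_univ _, h4⟩))
      · push Not at h3 h4
        by_cases h5 : E j ≤ 4 - x / 2
        · exact Or.inl (Or.inl ⟨hj, h3, h5⟩)
        · by_cases h6 : 4 + x / 2 ≤ E j
          · refine Or.inl (Or.inr ⟨hj, h6, ?_⟩)
            push_cast at h4
            linarith
          · push Not at h5 h6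
            refine Or.inr (Or.inl ⟨Finset.mem_univ _, ?_⟩)
            rw [abs_le]
            constructor <;> linarith
  have k5 : (J.card : ℝ) ≤ (((J.filter fun j => x / 2 ≤ E j ∧ E j ≤ 4 - x / 2).card : ℝ) +
      ((J.filter fun j => 4 + x / 2 ≤ E j ∧ E j ≤ 8 - x / 2).card : ℝ)) +
      (((Finset.univ.filter fun j => |E j - 4| ≤ x / 2).card : ℝ) +
      (((Finset.univ.filter fun j => E j < x / 2).card : ℝ) +
        ((Finset.univ.filter fun j => 4 * ((2 : ℕ) : ℝ) - x / 2 < E j).card : ℝ))) := by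
    have h3 := (Finset.card_le_card hcover).trans ((Finset.card_union_le _ _).trans
      (Nat.add_le_add (Finset.card_union_le _ _) ((Finset.card_union_le _ _).trans
        (Nat.add_le_add_left (Finset.card_union_le _ _) _))))
    exact_mod_cast h3
  have k6 : ∀ s t : ℝ, ((Finset.univ.filter fun j => s ≤ E j ∧ E j ≤ t).card : ℝ) ≤ N := by
    intro s t
    rw [hN]
    exact_mod_cast Finset.card_le_univ _
  have k7 : ∀ s t : ℝ, lam ^ tau2 β 0 * ((Finset.univ.filter fun j => s ≤ E j ∧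
      E j ≤ t).card : ℝ) ≤ ε / 8 * N := fun s t =>
    mul_le_mul (h1 lam hlam0 q3) (k6 s t) (by positivity) (by positivity)
  have k7a := k7 (x / 2) (4 - x / 2)
  have k7b := k7 (4 + x / 2) (8 - x / 2)
  have h4 := mul_le_mul_of_nonneg_left hsx hL0.le
  have h5 : 1 ≤ ε / 32 * L := by
    have h6 := h2 lam hlam0 q4
    have h7 : lam ^ (7 / 3 : ℝ) * lam ^ (-(7 / 3 : ℝ)) = 1 := by
      rw [← Real.rpow_add hlam0]; simp
    have h8 := mul_le_mul h6 hL (Real.rpow_nonneg hlam0.le _) (by positivity)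
    rw [h7] at h8
    linarith
  have k8 : (2 * ((L : ℝ) * Real.sqrt x) + 2) * (L : ℝ) ^ (2 - 1) ≤ ε / 8 * N := by
    have h3 : (L : ℝ) ^ (2 - 1) = L := by norm_num
    rw [hNL, h3, sq, ← mul_assoc (ε / 8)]
    refine mul_le_mul_of_nonneg_right ?_ hL0.le
    linarith
  have k9 : (4 * ((L : ℝ) * Real.sqrt x) + 4) * (L : ℝ) ≤ ε / 4 * N := by
    rw [hNL, sq, ← mul_assoc (ε / 4)]
    refine mul_le_mul_of_nonneg_right ?_ hL0.le
    linarith
  linarith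

end Pool.Agent.Zk71.LQ2
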